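import Mathlib

/-!
# Orbit-level coset enumeration certificates: definitions and kernel-friendly checker
-/

set_option autoImplicit false

namespace Pool.Agent.Helper541.OTC

/-- strict evaluation of a natural number argument -/
noncomputable def strict {α : Type} (x : ℕ) (f : ℕ → α) : α :=
  Nat.rec (f 0) (fun n _ => f n) (Nat.add x 1)

theorem strict_eq {α : Type} (x : ℕ) (f : ℕ → α) : strict x f = f x := rfl

/-- all numbers below `n` satisfy `p` -/
noncomputable def allb (n : ℕ) (p : ℕ → Bool) : Bool :=
  Nat.rec true (fun i ih => cond (p i) ih false) n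

theorem allb_zero (p : ℕ → Bool) : allb 0 p = true := rfl

theorem allb_succ (n : ℕ) (p : ℕ → Bool) : allb (n + 1) p = cond (p n) (allb n p) false := rfl

theorem allb_sound {n : ℕ} {p : ℕ → Bool} (h : allb n p = true) : ∀ i < n, p i = true := by
  induction n with
  | zero => intro i hi; omega
  | succ n ih =>
    rw [allb_succ] at h
    cases hp : p n with
    | false => rw [hp] at h; simp at h
    | true =>
      rw [hp, cond_true] at h
      intro i hi
      rcases Nat.lt_succ_iff_lt_or_eq.1 hi with h1 | h1
      · exact ih h i h1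
      · rw [h1]; exact hp

/-- permutation table: five digits of three bits -/
def Pn (pt a k : ℕ) : ℕ := Nat.mod (Nat.shiftRight pt (Nat.add (Nat.mul 15 a) (Nat.mul 3 k))) 8

/-- multiplication table -/
def mulT (mt a b : ℕ) : ℕ :=
  Nat.mod (Nat.shiftRight (Nat.mod (Nat.shiftRight mt (Nat.mul 840 a)) (2 ^ 840)) (Nat.mul 7 b)) 128

/-- inverse table -/
def invT (it a : ℕ) : ℕ := Nat.mod (Nat.shiftRight it (Nat.mul 7 a)) 128

/-- action table on masks -/
def actT (at' a S : ℕ) : ℕ := Nat.mod (Nat.shiftRight at' (Nat.add (Nat.mul 160 a) (Nat.mul 5 S))) 32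

/-- binary trees of numbers -/
inductive Tr where
  | leaf : ℕ → Tr
  | node : Tr → Tr → Tr

/-- lookup of a chunk -/
noncomputable def Tr.get (t : Tr) : ℕ → ℕ :=
  Tr.rec (fun n _ => n)
    (fun _ _ gl gr k =>
      cond (Nat.beq (Nat.mod k 2) 0) (strict (Nat.div k 2) gl) (strict (Nat.div k 2) gr)) t

/-- lookup of entry `id` of width `w` (`W = 2 ^ w`), chunks of 512 entries -/
noncomputable def look (t : Tr) (w W id : ℕ) : ℕ :=
  Nat.mod (Nat.shiftRight (t.get (Nat.shiftRight id 9)) (Nat.mul w (Nat.mod id 512))) W

/-- one step of a run through a list of packed uses -/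
noncomputable def runK (mt it at' : ℕ) (R : ℕ → ℕ) (t m : ℕ) (k : ℕ → ℕ → ℕ → ℕ → Bool)
    (fuel : ℕ) : ℕ → ℕ → ℕ → ℕ → ℕ → Bool :=
  Nat.rec (fun _ i V s c => k i V s c)
    (fun _ ih us i V s c =>
      strict (Nat.mod us 65536) fun u =>
      strict (Nat.shiftRight u 1) fun id =>
      cond (Nat.ble (Nat.succ id) t)
        (strict (R id) fun r =>
          strict (Nat.mod (Nat.shiftRight r 1) 2048) fun fi =>
          strict (Nat.mod (Nat.shiftRight r 12) 32) fun S =>
          strict (Nat.mod (Nat.shiftRight r 17) 2048) fun j =>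
          strict (Nat.mod (Nat.shiftRight r 28) 32) fun U =>
          strict (Nat.mod (Nat.shiftRight r 33) 128) fun τ =>
          strict (Nat.mod r 2) fun e =>
          cond (Nat.beq (Nat.mod u 2) 0)
            (cond (Nat.beq fi i)
              (strict (Nat.xor V (actT at' s S)) fun T =>
                cond (Nat.beq (Nat.mul e T) 0)
                  (strict (Nat.xor (Nat.xor T (actT at' s U)) (Nat.mul e m)) fun V' =>
                    strict (mulT mt s τ) fun s' =>
                    strict (Nat.shiftRight us 16) fun us' => ih us' j V' s' (Nat.add c e))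
                  false)
              false)
            (cond (Nat.beq j i)
              (strict (mulT mt s (invT it τ)) fun s' =>
                strict (Nat.xor V (actT at' s' U)) fun T =>
                cond (Nat.beq (Nat.mul e T) 0)
                  (strict (Nat.xor (Nat.xor T (actT at' s' S)) (Nat.mul e m)) fun V' =>
                    strict (Nat.shiftRight us 16) fun us' => ih us' fi V' s' (Nat.add c e))
                  false)
              false))
        false) fuel

/-- mask of a rule type: `0`, single bits `1..5`, complements `6..10` -/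
def maskOf (ty : ℕ) : ℕ :=
  Nat.mod (cond (Nat.beq ty 0) 0
    (cond (Nat.ble ty 5) (Nat.shiftLeft 1 (Nat.sub ty 1))
      (Nat.xor 31 (Nat.shiftLeft 1 (Nat.sub ty 6))))) 32

/-- the requirement on the number of `c`-uses -/
def cntOK (ty e c : ℕ) : Bool :=
  cond (Nat.beq ty 0) (Nat.beq (Nat.mod c 2) e)
    (cond (Nat.ble ty 5) (cond (Nat.beq c 2) (Nat.beq e 1) false)
      (cond (Nat.ble ty 10) (cond (Nat.beq c 5) (Nat.beq e 1) false) false))

/-- check of fact number `t` with record table `R`, justification table `J`, parent table `par` -/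
noncomputable def chk (mt it at' : ℕ) (R J par : ℕ → ℕ) (t : ℕ) : Bool :=
  strict (R t) fun r =>
  strict (J t) fun jv =>
  strict (Nat.mod (Nat.shiftRight r 33) 128) fun τ =>
  cond (Nat.ble (Nat.succ τ) 120)
    (strict (Nat.mod jv 16) fun ty =>
      cond (Nat.beq ty 15)
        (cond (Nat.beq r 1) true
          (cond (Nat.beq (Nat.mod r 8589934592) 0) true
            (cond (Nat.beq r 805318657) true
              (strict (Nat.mod (Nat.shiftRight r 17) 2048) fun j =>
                cond (Nat.beq r (Nat.add 1 (Nat.add (Nat.mul 2 (par j)) (Nat.mul 131072 j))))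
                  (cond (Nat.ble (Nat.succ (Nat.mod (par j) 2048)) j)
                    (Nat.ble (Nat.succ (par j)) 65536) false) false))))
        (strict (maskOf ty) fun m =>
          strict (Nat.mod (Nat.shiftRight r 12) 32) fun S =>
          runK mt it at' R t m
            (fun i' V' s' c' =>
              cond (Nat.beq i' (Nat.mod (Nat.shiftRight r 17) 2048))
                (cond (Nat.beq V' (Nat.mod (Nat.shiftRight r 28) 32))
                  (cond (Nat.beq s' τ) (cntOK ty (Nat.mod r 2) c') false) false) false)
            (Nat.mod (Nat.shiftRight jv 4) 16) (Nat.shiftRight jv 8)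
            (Nat.mod (Nat.shiftRight r 1) 2048) (Nat.xor S m) 0 0))
    false

/-- coverage check for orbit `i`: `rank i = 0` or every mask has a path with an odd number of
`c`-uses to a live orbit -/
noncomputable def cov (mt it at' : ℕ) (R C rank : ℕ → ℕ) (M i : ℕ) : Bool :=
  strict (rank i) fun k =>
  cond (Nat.beq k 0) true
    (allb 32 fun S =>
      strict (C (Nat.add (Nat.mul (Nat.sub k 1) 32) S)) fun v =>
      runK mt it at' R M 0
        (fun i' _ _ c' =>
          cond (Nat.beq (Nat.mod c' 2) 1) (cond (Nat.beq (rank i') 0) false true) false)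
        (Nat.mod v 16) (Nat.shiftRight v 4) i S 0 0)

/-- table checks -/
noncomputable def tabOK (pt mt it at' : ℕ) : Bool :=
  cond (allb 5 fun k => Nat.beq (Pn pt 0 k) k)
  (cond (allb 120 fun a => Nat.beq (actT at' a 31) 31)
  (cond (allb 120 fun a => allb 5 fun k => Nat.ble (Nat.succ (Pn pt a k)) 5)
  (cond (allb 120 fun a => allb 120 fun b =>
      strict (mulT mt a b) fun m => cond (Nat.ble (Nat.succ m) 120)
        (allb 5 fun k => Nat.beq (Pn pt m k) (Pn pt a (Pn pt b k))) false)
  (cond (allb 120 fun a => strict (invT it a) fun b => cond (Nat.ble (Nat.succ b) 120)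
      (allb 5 fun k => cond (Nat.beq (Pn pt a (Pn pt b k)) k) (Nat.beq (Pn pt b (Pn pt a k)) k)
        false) false)
  (cond (allb 120 fun a => allb 32 fun S =>
      cond (Nat.beq (actT at' a (actT at' (invT it a) S)) S)
      (Nat.beq (actT at' a S)
        (Nat.xor (Nat.mul (Nat.mod S 2) (Nat.pow 2 (Pn pt a 0)))
        (Nat.xor (Nat.mul (Nat.mod (Nat.shiftRight S 1) 2) (Nat.pow 2 (Pn pt a 1)))
        (Nat.xor (Nat.mul (Nat.mod (Nat.shiftRight S 2) 2) (Nat.pow 2 (Pn pt a 2)))
        (Nat.xor (Nat.mul (Nat.mod (Nat.shiftRight S 3) 2) (Nat.pow 2 (Pn pt a 3)))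
        (Nat.mul (Nat.mod (Nat.shiftRight S 4) 2) (Nat.pow 2 (Pn pt a 4)))))))) false)
    true false) false) false) false) false) false

end Pool.Agent.Helper541.OTC
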