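import Pool.Agent.Helper541.OTC.Dat

set_option autoImplicit false

namespace Pool.Agent.Helper541.OTC

theorem tab_ok : tabOK ptab mtab itab atab = true := by decide +kernel

theorem facts_ok : allb 20579 (chk mtab itab atab RR JJ par) = true := by decide +kernel

end Pool.Agent.Helper541.OTC
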