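import Pool.Agent.Helper541.OTC.DatT
import Pool.Agent.Helper541.OTC.DatR
import Pool.Agent.Helper541.OTC.DatJ
import Pool.Agent.Helper541.OTC.DatC

set_option autoImplicit false

namespace Pool.Agent.Helper541.OTC

/-- records -/
noncomputable def RR (t : ℕ) : ℕ := look treeR 40 1099511627776 t

/-- justifications -/
noncomputable def JJ (t : ℕ) : ℕ := look treeJ 88 309485009821345068724781056 t

/-- coverage data -/
noncomputable def CV (t : ℕ) : ℕ := look treeC 68 295147905179352825856 t


end Pool.Agent.Helper541.OTC
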