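import Mathlib

/-! Dietzmann lemma for involutions and finiteness of the Coxeter group of type A4
(job solution by helper221; Dietzmann part by helper987). -/

set_option autoImplicit false

namespace Pool.Agent.Helper541.OTC

section Aux
variable {G : Type*} [Group G]
section Dietzmann

variable (S : Set G) (hinv : ∀ s ∈ S, s * s = 1) (hc : ∀ x : G, ∀ s ∈ S, x * s * x⁻¹ ∈ S)

include hc in
/-- moving one occurrence of `s` to the front -/
theorem move_front (s : G) (l : List G) (hl : ∀ t ∈ l, t ∈ S) (hs : s ∈ l) :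
    ∃ l' : List G, (∀ t ∈ l', t ∈ S) ∧ l'.length + 1 = l.length ∧ l.prod = s * l'.prod := by
  induction l with
  | nil => simp at hs
  | cons t l ih =>
    by_cases hts : s = t
    · subst hts
      exact ⟨l, fun u hu => hl u (by simp [hu]), by simp, by simp⟩
    · have hs' : s ∈ l := by
        rcases List.mem_cons.1 hs with h | h
        · exact absurd h hts
        · exact h
      obtain ⟨l', h1, h2, h3⟩ := ih (fun u hu => hl u (by simp [hu])) hs'
      refine ⟨(s⁻¹ * t * s) :: l', ?_, ?_, ?_⟩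
      · intro u hu
        rcases List.mem_cons.1 hu with h | h
        · rw [h]
          have := hc s⁻¹ t (hl t (by simp))
          simpa using this
        · exact h1 u h
      · simp [← h2]
      · simp only [List.prod_cons]
        rw [h3]
        group

include hinv hc in
/-- a word with a repetition can be shortened -/
theorem shorten (l : List G) (hl : ∀ t ∈ l, t ∈ S) (hd : ¬ l.Nodup) :
    ∃ l' : List G, (∀ t ∈ l', t ∈ S) ∧ l'.length < l.length ∧ l.prod = l'.prod := by
  induction l with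
  | nil => simp at hd
  | cons t l ih =>
    rw [List.nodup_cons, not_and_or, not_not] at hd
    rcases hd with h | h
    · obtain ⟨l', h1, h2, h3⟩ := move_front S hc t l (fun u hu => hl u (by simp [hu])) h
      refine ⟨l', h1, by simp only [List.length_cons]; omega, ?_⟩
      rw [List.prod_cons, h3, ← mul_assoc, hinv t (hl t (by simp)), one_mul]
    · obtain ⟨l', h1, h2, h3⟩ := ih (fun u hu => hl u (by simp [hu])) h
      refine ⟨t :: l', ?_, by simp; omega, by simp [h3]⟩
      intro u hu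
      rcases List.mem_cons.1 hu with h' | h'
      · rw [h']; exact hl t (by simp)
      · exact h1 u h'

include hinv hc in
theorem exists_nodup (l : List G) (hl : ∀ t ∈ l, t ∈ S) :
    ∃ l' : List G, (∀ t ∈ l', t ∈ S) ∧ l'.Nodup ∧ l.prod = l'.prod := by
  induction hn : l.length using Nat.strong_induction_on generalizing l with
  | _ n ih =>
    by_cases hd : l.Nodup
    · exact ⟨l, hl, hd, rfl⟩
    · obtain ⟨l', h1, h2, h3⟩ := shorten S hinv hc l hl hd
      obtain ⟨l'', h4, h5, h6⟩ := ih l'.length (hn ▸ h2) l' h1 rfl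
      exact ⟨l'', h4, h5, h3.trans h6⟩

include hinv hc in
/-- **Dietzmann's lemma** for involutions: a finite normal set of involutions generates a finite
subgroup. -/
theorem dietzmann (hS : S.Finite) : Finite (Subgroup.closure S) := by
  classical
  have hlists : {l : List G | (∀ t ∈ l, t ∈ S) ∧ l.Nodup}.Finite := by
    have : Finite S := hS.to_subtype
    have h1 : {l : List S | l.length ≤ Nat.card S}.Finite := List.finite_length_le _ _
    refine (h1.image (fun l => l.map Subtype.val)).subset ?_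
    rintro l ⟨hl, hd⟩
    refine ⟨l.pmap (fun t ht => ⟨t, ht⟩) hl, ?_, ?_⟩
    · have hd' : (l.pmap (fun t ht => (⟨t, ht⟩ : S)) hl).Nodup := by
        refine List.Nodup.pmap ?_ hd
        intro a ha b hb hab
        exact congrArg Subtype.val hab
      have := Fintype.ofFinite S
      rw [Set.mem_setOf_eq, Nat.card_eq_fintype_card]
      exact List.Nodup.length_le_card hd'
    · simp [List.map_pmap]
  have hsub : ((Subgroup.closure S : Subgroup G) : Set G) ⊆
      List.prod '' {l : List G | (∀ t ∈ l, t ∈ S) ∧ l.Nodup} := by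
    intro x hx
    have hx' : ∃ l : List G, (∀ t ∈ l, t ∈ S) ∧ l.prod = x := by
      induction hx using Subgroup.closure_induction_right with
      | one => exact ⟨[], by simp, by simp⟩
      | mul_right x _ y hy ih =>
        obtain ⟨l, h1, h2⟩ := ih
        refine ⟨l ++ [y], ?_, by simp [h2]⟩
        intro t ht
        rcases List.mem_append.1 ht with h | h
        · exact h1 t h
        · rw [List.mem_singleton.1 h]; exact hy
      | mul_inv_cancel x _ y hy ih =>
        obtain ⟨l, h1, h2⟩ := ih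
        have hyy : y⁻¹ = y := inv_eq_of_mul_eq_one_right (hinv y hy)
        refine ⟨l ++ [y], ?_, by simp [h2, hyy]⟩
        intro t ht
        rcases List.mem_append.1 ht with h | h
        · exact h1 t h
        · rw [List.mem_singleton.1 h]; exact hy
    obtain ⟨l, h1, h2⟩ := hx'
    obtain ⟨l', h3, h4, h5⟩ := exists_nodup S hinv hc l h1
    exact ⟨l', ⟨h3, h4⟩, by rw [← h5, h2]⟩
  exact ((hlists.image _).subset hsub).to_subtype

include hc in
theorem closure_normal : (Subgroup.closure S).Normal := by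
  refine ⟨?_⟩
  intro n hn g
  induction hn using Subgroup.closure_induction with
  | mem x hx => exact Subgroup.subset_closure (hc g x hx)
  | one => simp [Subgroup.one_mem]
  | mul x y _ _ hx hy =>
    have := Subgroup.mul_mem _ hx hy
    simpa [mul_assoc] using this
  | inv x _ hx =>
    have := Subgroup.inv_mem _ hx
    simpa [mul_assoc] using this

end Dietzmann
end Aux

/-- A group generated by four elements satisfying the Coxeter relations of type A4 is finite. -/
theorem finite_A4 {Q : Type*} [Group Q] (a b c d : Q)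
    (ha : a * a = 1) (hb : b * b = 1) (hc : c * c = 1) (hd : d * d = 1)
    (hab : a * b * a = b * a * b) (hbc : b * c * b = c * b * c) (hcd : c * d * c = d * c * d)
    (hac : a * c = c * a) (had : a * d = d * a) (hbd : b * d = d * b)
    (hgen : Subgroup.closure ({a, b, c, d} : Set Q) = ⊤) : Finite Q := by
  classical
  have r_aa : ∀ x : Q, a * (a * x) = x := fun x => by rw [← mul_assoc, ha, one_mul]
  have r_bb : ∀ x : Q, b * (b * x) = x := fun x => by rw [← mul_assoc, hb, one_mul]
  have r_cc : ∀ x : Q, c * (c * x) = x := fun x => by rw [← mul_assoc, hc, one_mul]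
  have r_dd : ∀ x : Q, d * (d * x) = x := fun x => by rw [← mul_assoc, hd, one_mul]
  have r_ca : c * a = a * c := hac.symm
  have t_ca : ∀ x : Q, c * (a * x) = a * (c * x) := fun x => by
    have := congrArg (· * x) r_ca
    simpa only [mul_assoc] using this
  have r_da : d * a = a * d := had.symm
  have t_da : ∀ x : Q, d * (a * x) = a * (d * x) := fun x => by
    have := congrArg (· * x) r_da
    simpa only [mul_assoc] using this
  have r_db : d * b = b * d := hbd.symm
  have t_db : ∀ x : Q, d * (b * x) = b * (d * x) := fun x => by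
    have := congrArg (· * x) r_db
    simpa only [mul_assoc] using this
  have r_bab : b * (a * b) = a * (b * a) := by rw [← mul_assoc, ← mul_assoc]; exact hab.symm
  have t_bab : ∀ x : Q, b * (a * (b * x)) = a * (b * (a * x)) := fun x => by
    have := congrArg (· * x) r_bab
    simpa only [mul_assoc] using this
  have r_cbc : c * (b * c) = b * (c * b) := by rw [← mul_assoc, ← mul_assoc]; exact hbc.symm
  have t_cbc : ∀ x : Q, c * (b * (c * x)) = b * (c * (b * x)) := fun x => by
    have := congrArg (· * x) r_cbc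
    simpa only [mul_assoc] using this
  have r_dcd : d * (c * d) = c * (d * c) := by rw [← mul_assoc, ← mul_assoc]; exact hcd.symm
  have t_dcd : ∀ x : Q, d * (c * (d * x)) = c * (d * (c * x)) := fun x => by
    have := congrArg (· * x) r_dcd
    simpa only [mul_assoc] using this
  have r_cbac : c * (b * (a * c)) = b * (c * (b * a)) := by rw [hac, ← mul_assoc b c a, ← mul_assoc c (b*c) a, r_cbc]; simp only [mul_assoc]
  have t_cbac : ∀ x : Q, c * (b * (a * (c * x))) = b * (c * (b * (a * x))) := fun x => by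
    have := congrArg (· * x) r_cbac
    simpa only [mul_assoc] using this
  have r_dcbd : d * (c * (b * d)) = c * (d * (c * b)) := by rw [hbd, ← mul_assoc c d b, ← mul_assoc d (c*d) b, r_dcd]; simp only [mul_assoc]
  have t_dcbd : ∀ x : Q, d * (c * (b * (d * x))) = c * (d * (c * (b * x))) := fun x => by
    have := congrArg (· * x) r_dcbd
    simpa only [mul_assoc] using this
  have r_dcbad : d * (c * (b * (a * d))) = c * (d * (c * (b * a))) := by rw [had, ← mul_assoc b d a, hbd, mul_assoc d b a, ← mul_assoc c d (b*a), ← mul_assoc d (c*d) (b*a), r_dcd]; simp only [mul_assoc]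
  have t_dcbad : ∀ x : Q, d * (c * (b * (a * (d * x)))) = c * (d * (c * (b * (a * x)))) := fun x => by
    have := congrArg (· * x) r_dcbad
    simpa only [mul_assoc] using this
  let S : Set Q := {a, b, c, d, a * (b * a), b * (c * b), c * (d * c), a * (b * (c * (b * a))), b * (c * (d * (c * b))), a * (b * (c * (d * (c * (b * a)))))}
  have inv_a : a⁻¹ = a := inv_eq_of_mul_eq_one_left ha
  have k_a : ∀ s ∈ S, a * (s * a) ∈ S := by
    intro s hs
    simp only [S, Set.mem_insert_iff, Set.mem_singleton_iff] at hs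
    rcases hs with h | h | h | h | h | h | h | h | h | h
    · have e : a * ((a) * a) = a := by simp only [mul_assoc, ha, r_aa, hb, r_bb, hc, r_cc, hd, r_dd, r_ca, t_ca, r_da, t_da, r_db, t_db, r_bab, t_bab, r_cbc, t_cbc, r_dcd, t_dcd, r_cbac, t_cbac, r_dcbd, t_dcbd, r_dcbad, t_dcbad, mul_one, one_mul]
      rw [h, e]; simp only [S, Set.mem_insert_iff, Set.mem_singleton_iff]; tauto
    · have e : a * ((b) * a) = a * (b * a) := by simp only [mul_assoc, ha, r_aa, hb, r_bb, hc, r_cc, hd, r_dd, r_ca, t_ca, r_da, t_da, r_db, t_db, r_bab, t_bab, r_cbc, t_cbc, r_dcd, t_dcd, r_cbac, t_cbac, r_dcbd, t_dcbd, r_dcbad, t_dcbad, mul_one, one_mul]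
      rw [h, e]; simp only [S, Set.mem_insert_iff, Set.mem_singleton_iff]; tauto
    · have e : a * ((c) * a) = c := by simp only [mul_assoc, ha, r_aa, hb, r_bb, hc, r_cc, hd, r_dd, r_ca, t_ca, r_da, t_da, r_db, t_db, r_bab, t_bab, r_cbc, t_cbc, r_dcd, t_dcd, r_cbac, t_cbac, r_dcbd, t_dcbd, r_dcbad, t_dcbad, mul_one, one_mul]
      rw [h, e]; simp only [S, Set.mem_insert_iff, Set.mem_singleton_iff]; tauto
    · have e : a * ((d) * a) = d := by simp only [mul_assoc, ha, r_aa, hb, r_bb, hc, r_cc, hd, r_dd, r_ca, t_ca, r_da, t_da, r_db, t_db, r_bab, t_bab, r_cbc, t_cbc, r_dcd, t_dcd, r_cbac, t_cbac, r_dcbd, t_dcbd, r_dcbad, t_dcbad, mul_one, one_mul]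
      rw [h, e]; simp only [S, Set.mem_insert_iff, Set.mem_singleton_iff]; tauto
    · have e : a * ((a * (b * a)) * a) = b := by simp only [mul_assoc, ha, r_aa, hb, r_bb, hc, r_cc, hd, r_dd, r_ca, t_ca, r_da, t_da, r_db, t_db, r_bab, t_bab, r_cbc, t_cbc, r_dcd, t_dcd, r_cbac, t_cbac, r_dcbd, t_dcbd, r_dcbad, t_dcbad, mul_one, one_mul]
      rw [h, e]; simp only [S, Set.mem_insert_iff, Set.mem_singleton_iff]; tauto
    · have e : a * ((b * (c * b)) * a) = a * (b * (c * (b * a))) := by simp only [mul_assoc, ha, r_aa, hb, r_bb, hc, r_cc, hd, r_dd, r_ca, t_ca, r_da, t_da, r_db, t_db, r_bab, t_bab, r_cbc, t_cbc, r_dcd, t_dcd, r_cbac, t_cbac, r_dcbd, t_dcbd, r_dcbad, t_dcbad, mul_one, one_mul]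
      rw [h, e]; simp only [S, Set.mem_insert_iff, Set.mem_singleton_iff]; tauto
    · have e : a * ((c * (d * c)) * a) = c * (d * c) := by simp only [mul_assoc, ha, r_aa, hb, r_bb, hc, r_cc, hd, r_dd, r_ca, t_ca, r_da, t_da, r_db, t_db, r_bab, t_bab, r_cbc, t_cbc, r_dcd, t_dcd, r_cbac, t_cbac, r_dcbd, t_dcbd, r_dcbad, t_dcbad, mul_one, one_mul]
      rw [h, e]; simp only [S, Set.mem_insert_iff, Set.mem_singleton_iff]; tauto
    · have e : a * ((a * (b * (c * (b * a)))) * a) = b * (c * b) := by simp only [mul_assoc, ha, r_aa, hb, r_bb, hc, r_cc, hd, r_dd, r_ca, t_ca, r_da, t_da, r_db, t_db, r_bab, t_bab, r_cbc, t_cbc, r_dcd, t_dcd, r_cbac, t_cbac, r_dcbd, t_dcbd, r_dcbad, t_dcbad, mul_one, one_mul]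
      rw [h, e]; simp only [S, Set.mem_insert_iff, Set.mem_singleton_iff]; tauto
    · have e : a * ((b * (c * (d * (c * b)))) * a) = a * (b * (c * (d * (c * (b * a))))) := by simp only [mul_assoc, ha, r_aa, hb, r_bb, hc, r_cc, hd, r_dd, r_ca, t_ca, r_da, t_da, r_db, t_db, r_bab, t_bab, r_cbc, t_cbc, r_dcd, t_dcd, r_cbac, t_cbac, r_dcbd, t_dcbd, r_dcbad, t_dcbad, mul_one, one_mul]
      rw [h, e]; simp only [S, Set.mem_insert_iff, Set.mem_singleton_iff]; tauto
    · have e : a * ((a * (b * (c * (d * (c * (b * a)))))) * a) = b * (c * (d * (c * b))) := by simp only [mul_assoc, ha, r_aa, hb, r_bb, hc, r_cc, hd, r_dd, r_ca, t_ca, r_da, t_da, r_db, t_db, r_bab, t_bab, r_cbc, t_cbc, r_dcd, t_dcd, r_cbac, t_cbac, r_dcbd, t_dcbd, r_dcbad, t_dcbad, mul_one, one_mul]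
      rw [h, e]; simp only [S, Set.mem_insert_iff, Set.mem_singleton_iff]; tauto
  have inv_b : b⁻¹ = b := inv_eq_of_mul_eq_one_left hb
  have k_b : ∀ s ∈ S, b * (s * b) ∈ S := by
    intro s hs
    simp only [S, Set.mem_insert_iff, Set.mem_singleton_iff] at hs
    rcases hs with h | h | h | h | h | h | h | h | h | h
    · have e : b * ((a) * b) = a * (b * a) := by simp only [mul_assoc, ha, r_aa, hb, r_bb, hc, r_cc, hd, r_dd, r_ca, t_ca, r_da, t_da, r_db, t_db, r_bab, t_bab, r_cbc, t_cbc, r_dcd, t_dcd, r_cbac, t_cbac, r_dcbd, t_dcbd, r_dcbad, t_dcbad, mul_one, one_mul]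
      rw [h, e]; simp only [S, Set.mem_insert_iff, Set.mem_singleton_iff]; tauto
    · have e : b * ((b) * b) = b := by simp only [mul_assoc, ha, r_aa, hb, r_bb, hc, r_cc, hd, r_dd, r_ca, t_ca, r_da, t_da, r_db, t_db, r_bab, t_bab, r_cbc, t_cbc, r_dcd, t_dcd, r_cbac, t_cbac, r_dcbd, t_dcbd, r_dcbad, t_dcbad, mul_one, one_mul]
      rw [h, e]; simp only [S, Set.mem_insert_iff, Set.mem_singleton_iff]; tauto
    · have e : b * ((c) * b) = b * (c * b) := by simp only [mul_assoc, ha, r_aa, hb, r_bb, hc, r_cc, hd, r_dd, r_ca, t_ca, r_da, t_da, r_db, t_db, r_bab, t_bab, r_cbc, t_cbc, r_dcd, t_dcd, r_cbac, t_cbac, r_dcbd, t_dcbd, r_dcbad, t_dcbad, mul_one, one_mul]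
      rw [h, e]; simp only [S, Set.mem_insert_iff, Set.mem_singleton_iff]; tauto
    · have e : b * ((d) * b) = d := by simp only [mul_assoc, ha, r_aa, hb, r_bb, hc, r_cc, hd, r_dd, r_ca, t_ca, r_da, t_da, r_db, t_db, r_bab, t_bab, r_cbc, t_cbc, r_dcd, t_dcd, r_cbac, t_cbac, r_dcbd, t_dcbd, r_dcbad, t_dcbad, mul_one, one_mul]
      rw [h, e]; simp only [S, Set.mem_insert_iff, Set.mem_singleton_iff]; tauto
    · have e : b * ((a * (b * a)) * b) = a := by simp only [mul_assoc, ha, r_aa, hb, r_bb, hc, r_cc, hd, r_dd, r_ca, t_ca, r_da, t_da, r_db, t_db, r_bab, t_bab, r_cbc, t_cbc, r_dcd, t_dcd, r_cbac, t_cbac, r_dcbd, t_dcbd, r_dcbad, t_dcbad, mul_one, one_mul]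
      rw [h, e]; simp only [S, Set.mem_insert_iff, Set.mem_singleton_iff]; tauto
    · have e : b * ((b * (c * b)) * b) = c := by simp only [mul_assoc, ha, r_aa, hb, r_bb, hc, r_cc, hd, r_dd, r_ca, t_ca, r_da, t_da, r_db, t_db, r_bab, t_bab, r_cbc, t_cbc, r_dcd, t_dcd, r_cbac, t_cbac, r_dcbd, t_dcbd, r_dcbad, t_dcbad, mul_one, one_mul]
      rw [h, e]; simp only [S, Set.mem_insert_iff, Set.mem_singleton_iff]; tauto
    · have e : b * ((c * (d * c)) * b) = b * (c * (d * (c * b))) := by simp only [mul_assoc, ha, r_aa, hb, r_bb, hc, r_cc, hd, r_dd, r_ca, t_ca, r_da, t_da, r_db, t_db, r_bab, t_bab, r_cbc, t_cbc, r_dcd, t_dcd, r_cbac, t_cbac, r_dcbd, t_dcbd, r_dcbad, t_dcbad, mul_one, one_mul]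
      rw [h, e]; simp only [S, Set.mem_insert_iff, Set.mem_singleton_iff]; tauto
    · have e : b * ((a * (b * (c * (b * a)))) * b) = a * (b * (c * (b * a))) := by simp only [mul_assoc, ha, r_aa, hb, r_bb, hc, r_cc, hd, r_dd, r_ca, t_ca, r_da, t_da, r_db, t_db, r_bab, t_bab, r_cbc, t_cbc, r_dcd, t_dcd, r_cbac, t_cbac, r_dcbd, t_dcbd, r_dcbad, t_dcbad, mul_one, one_mul]
      rw [h, e]; simp only [S, Set.mem_insert_iff, Set.mem_singleton_iff]; tauto
    · have e : b * ((b * (c * (d * (c * b)))) * b) = c * (d * c) := by simp only [mul_assoc, ha, r_aa, hb, r_bb, hc, r_cc, hd, r_dd, r_ca, t_ca, r_da, t_da, r_db, t_db, r_bab, t_bab, r_cbc, t_cbc, r_dcd, t_dcd, r_cbac, t_cbac, r_dcbd, t_dcbd, r_dcbad, t_dcbad, mul_one, one_mul]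
      rw [h, e]; simp only [S, Set.mem_insert_iff, Set.mem_singleton_iff]; tauto
    · have e : b * ((a * (b * (c * (d * (c * (b * a)))))) * b) = a * (b * (c * (d * (c * (b * a))))) := by simp only [mul_assoc, ha, r_aa, hb, r_bb, hc, r_cc, hd, r_dd, r_ca, t_ca, r_da, t_da, r_db, t_db, r_bab, t_bab, r_cbc, t_cbc, r_dcd, t_dcd, r_cbac, t_cbac, r_dcbd, t_dcbd, r_dcbad, t_dcbad, mul_one, one_mul]
      rw [h, e]; simp only [S, Set.mem_insert_iff, Set.mem_singleton_iff]; tauto
  have inv_c : c⁻¹ = c := inv_eq_of_mul_eq_one_left hc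
  have k_c : ∀ s ∈ S, c * (s * c) ∈ S := by
    intro s hs
    simp only [S, Set.mem_insert_iff, Set.mem_singleton_iff] at hs
    rcases hs with h | h | h | h | h | h | h | h | h | h
    · have e : c * ((a) * c) = a := by simp only [mul_assoc, ha, r_aa, hb, r_bb, hc, r_cc, hd, r_dd, r_ca, t_ca, r_da, t_da, r_db, t_db, r_bab, t_bab, r_cbc, t_cbc, r_dcd, t_dcd, r_cbac, t_cbac, r_dcbd, t_dcbd, r_dcbad, t_dcbad, mul_one, one_mul]
      rw [h, e]; simp only [S, Set.mem_insert_iff, Set.mem_singleton_iff]; tauto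
    · have e : c * ((b) * c) = b * (c * b) := by simp only [mul_assoc, ha, r_aa, hb, r_bb, hc, r_cc, hd, r_dd, r_ca, t_ca, r_da, t_da, r_db, t_db, r_bab, t_bab, r_cbc, t_cbc, r_dcd, t_dcd, r_cbac, t_cbac, r_dcbd, t_dcbd, r_dcbad, t_dcbad, mul_one, one_mul]
      rw [h, e]; simp only [S, Set.mem_insert_iff, Set.mem_singleton_iff]; tauto
    · have e : c * ((c) * c) = c := by simp only [mul_assoc, ha, r_aa, hb, r_bb, hc, r_cc, hd, r_dd, r_ca, t_ca, r_da, t_da, r_db, t_db, r_bab, t_bab, r_cbc, t_cbc, r_dcd, t_dcd, r_cbac, t_cbac, r_dcbd, t_dcbd, r_dcbad, t_dcbad, mul_one, one_mul]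
      rw [h, e]; simp only [S, Set.mem_insert_iff, Set.mem_singleton_iff]; tauto
    · have e : c * ((d) * c) = c * (d * c) := by simp only [mul_assoc, ha, r_aa, hb, r_bb, hc, r_cc, hd, r_dd, r_ca, t_ca, r_da, t_da, r_db, t_db, r_bab, t_bab, r_cbc, t_cbc, r_dcd, t_dcd, r_cbac, t_cbac, r_dcbd, t_dcbd, r_dcbad, t_dcbad, mul_one, one_mul]
      rw [h, e]; simp only [S, Set.mem_insert_iff, Set.mem_singleton_iff]; tauto
    · have e : c * ((a * (b * a)) * c) = a * (b * (c * (b * a))) := by simp only [mul_assoc, ha, r_aa, hb, r_bb, hc, r_cc, hd, r_dd, r_ca, t_ca, r_da, t_da, r_db, t_db, r_bab, t_bab, r_cbc, t_cbc, r_dcd, t_dcd, r_cbac, t_cbac, r_dcbd, t_dcbd, r_dcbad, t_dcbad, mul_one, one_mul]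
      rw [h, e]; simp only [S, Set.mem_insert_iff, Set.mem_singleton_iff]; tauto
    · have e : c * ((b * (c * b)) * c) = b := by simp only [mul_assoc, ha, r_aa, hb, r_bb, hc, r_cc, hd, r_dd, r_ca, t_ca, r_da, t_da, r_db, t_db, r_bab, t_bab, r_cbc, t_cbc, r_dcd, t_dcd, r_cbac, t_cbac, r_dcbd, t_dcbd, r_dcbad, t_dcbad, mul_one, one_mul]
      rw [h, e]; simp only [S, Set.mem_insert_iff, Set.mem_singleton_iff]; tauto
    · have e : c * ((c * (d * c)) * c) = d := by simp only [mul_assoc, ha, r_aa, hb, r_bb, hc, r_cc, hd, r_dd, r_ca, t_ca, r_da, t_da, r_db, t_db, r_bab, t_bab, r_cbc, t_cbc, r_dcd, t_dcd, r_cbac, t_cbac, r_dcbd, t_dcbd, r_dcbad, t_dcbad, mul_one, one_mul]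
      rw [h, e]; simp only [S, Set.mem_insert_iff, Set.mem_singleton_iff]; tauto
    · have e : c * ((a * (b * (c * (b * a)))) * c) = a * (b * a) := by simp only [mul_assoc, ha, r_aa, hb, r_bb, hc, r_cc, hd, r_dd, r_ca, t_ca, r_da, t_da, r_db, t_db, r_bab, t_bab, r_cbc, t_cbc, r_dcd, t_dcd, r_cbac, t_cbac, r_dcbd, t_dcbd, r_dcbad, t_dcbad, mul_one, one_mul]
      rw [h, e]; simp only [S, Set.mem_insert_iff, Set.mem_singleton_iff]; tauto
    · have e : c * ((b * (c * (d * (c * b)))) * c) = b * (c * (d * (c * b))) := by simp only [mul_assoc, ha, r_aa, hb, r_bb, hc, r_cc, hd, r_dd, r_ca, t_ca, r_da, t_da, r_db, t_db, r_bab, t_bab, r_cbc, t_cbc, r_dcd, t_dcd, r_cbac, t_cbac, r_dcbd, t_dcbd, r_dcbad, t_dcbad, mul_one, one_mul]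
      rw [h, e]; simp only [S, Set.mem_insert_iff, Set.mem_singleton_iff]; tauto
    · have e : c * ((a * (b * (c * (d * (c * (b * a)))))) * c) = a * (b * (c * (d * (c * (b * a))))) := by simp only [mul_assoc, ha, r_aa, hb, r_bb, hc, r_cc, hd, r_dd, r_ca, t_ca, r_da, t_da, r_db, t_db, r_bab, t_bab, r_cbc, t_cbc, r_dcd, t_dcd, r_cbac, t_cbac, r_dcbd, t_dcbd, r_dcbad, t_dcbad, mul_one, one_mul]
      rw [h, e]; simp only [S, Set.mem_insert_iff, Set.mem_singleton_iff]; tauto
  have inv_d : d⁻¹ = d := inv_eq_of_mul_eq_one_left hd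
  have k_d : ∀ s ∈ S, d * (s * d) ∈ S := by
    intro s hs
    simp only [S, Set.mem_insert_iff, Set.mem_singleton_iff] at hs
    rcases hs with h | h | h | h | h | h | h | h | h | h
    · have e : d * ((a) * d) = a := by simp only [mul_assoc, ha, r_aa, hb, r_bb, hc, r_cc, hd, r_dd, r_ca, t_ca, r_da, t_da, r_db, t_db, r_bab, t_bab, r_cbc, t_cbc, r_dcd, t_dcd, r_cbac, t_cbac, r_dcbd, t_dcbd, r_dcbad, t_dcbad, mul_one, one_mul]
      rw [h, e]; simp only [S, Set.mem_insert_iff, Set.mem_singleton_iff]; tauto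
    · have e : d * ((b) * d) = b := by simp only [mul_assoc, ha, r_aa, hb, r_bb, hc, r_cc, hd, r_dd, r_ca, t_ca, r_da, t_da, r_db, t_db, r_bab, t_bab, r_cbc, t_cbc, r_dcd, t_dcd, r_cbac, t_cbac, r_dcbd, t_dcbd, r_dcbad, t_dcbad, mul_one, one_mul]
      rw [h, e]; simp only [S, Set.mem_insert_iff, Set.mem_singleton_iff]; tauto
    · have e : d * ((c) * d) = c * (d * c) := by simp only [mul_assoc, ha, r_aa, hb, r_bb, hc, r_cc, hd, r_dd, r_ca, t_ca, r_da, t_da, r_db, t_db, r_bab, t_bab, r_cbc, t_cbc, r_dcd, t_dcd, r_cbac, t_cbac, r_dcbd, t_dcbd, r_dcbad, t_dcbad, mul_one, one_mul]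
      rw [h, e]; simp only [S, Set.mem_insert_iff, Set.mem_singleton_iff]; tauto
    · have e : d * ((d) * d) = d := by simp only [mul_assoc, ha, r_aa, hb, r_bb, hc, r_cc, hd, r_dd, r_ca, t_ca, r_da, t_da, r_db, t_db, r_bab, t_bab, r_cbc, t_cbc, r_dcd, t_dcd, r_cbac, t_cbac, r_dcbd, t_dcbd, r_dcbad, t_dcbad, mul_one, one_mul]
      rw [h, e]; simp only [S, Set.mem_insert_iff, Set.mem_singleton_iff]; tauto
    · have e : d * ((a * (b * a)) * d) = a * (b * a) := by simp only [mul_assoc, ha, r_aa, hb, r_bb, hc, r_cc, hd, r_dd, r_ca, t_ca, r_da, t_da, r_db, t_db, r_bab, t_bab, r_cbc, t_cbc, r_dcd, t_dcd, r_cbac, t_cbac, r_dcbd, t_dcbd, r_dcbad, t_dcbad, mul_one, one_mul]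
      rw [h, e]; simp only [S, Set.mem_insert_iff, Set.mem_singleton_iff]; tauto
    · have e : d * ((b * (c * b)) * d) = b * (c * (d * (c * b))) := by simp only [mul_assoc, ha, r_aa, hb, r_bb, hc, r_cc, hd, r_dd, r_ca, t_ca, r_da, t_da, r_db, t_db, r_bab, t_bab, r_cbc, t_cbc, r_dcd, t_dcd, r_cbac, t_cbac, r_dcbd, t_dcbd, r_dcbad, t_dcbad, mul_one, one_mul]
      rw [h, e]; simp only [S, Set.mem_insert_iff, Set.mem_singleton_iff]; tauto
    · have e : d * ((c * (d * c)) * d) = c := by simp only [mul_assoc, ha, r_aa, hb, r_bb, hc, r_cc, hd, r_dd, r_ca, t_ca, r_da, t_da, r_db, t_db, r_bab, t_bab, r_cbc, t_cbc, r_dcd, t_dcd, r_cbac, t_cbac, r_dcbd, t_dcbd, r_dcbad, t_dcbad, mul_one, one_mul]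
      rw [h, e]; simp only [S, Set.mem_insert_iff, Set.mem_singleton_iff]; tauto
    · have e : d * ((a * (b * (c * (b * a)))) * d) = a * (b * (c * (d * (c * (b * a))))) := by simp only [mul_assoc, ha, r_aa, hb, r_bb, hc, r_cc, hd, r_dd, r_ca, t_ca, r_da, t_da, r_db, t_db, r_bab, t_bab, r_cbc, t_cbc, r_dcd, t_dcd, r_cbac, t_cbac, r_dcbd, t_dcbd, r_dcbad, t_dcbad, mul_one, one_mul]
      rw [h, e]; simp only [S, Set.mem_insert_iff, Set.mem_singleton_iff]; tauto
    · have e : d * ((b * (c * (d * (c * b)))) * d) = b * (c * b) := by simp only [mul_assoc, ha, r_aa, hb, r_bb, hc, r_cc, hd, r_dd, r_ca, t_ca, r_da, t_da, r_db, t_db, r_bab, t_bab, r_cbc, t_cbc, r_dcd, t_dcd, r_cbac, t_cbac, r_dcbd, t_dcbd, r_dcbad, t_dcbad, mul_one, one_mul]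
      rw [h, e]; simp only [S, Set.mem_insert_iff, Set.mem_singleton_iff]; tauto
    · have e : d * ((a * (b * (c * (d * (c * (b * a)))))) * d) = a * (b * (c * (b * a))) := by simp only [mul_assoc, ha, r_aa, hb, r_bb, hc, r_cc, hd, r_dd, r_ca, t_ca, r_da, t_da, r_db, t_db, r_bab, t_bab, r_cbc, t_cbc, r_dcd, t_dcd, r_cbac, t_cbac, r_dcbd, t_dcbd, r_dcbad, t_dcbad, mul_one, one_mul]
      rw [h, e]; simp only [S, Set.mem_insert_iff, Set.mem_singleton_iff]; tauto
  have hinv : ∀ s ∈ S, s * s = 1 := by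
    intro s hs
    simp only [S, Set.mem_insert_iff, Set.mem_singleton_iff] at hs
    rcases hs with h | h | h | h | h | h | h | h | h | h <;> (rw [h]; simp only [mul_assoc, ha, r_aa, hb, r_bb, hc, r_cc, hd, r_dd, r_ca, t_ca, r_da, t_da, r_db, t_db, r_bab, t_bab, r_cbc, t_cbc, r_dcd, t_dcd, r_cbac, t_cbac, r_dcbd, t_dcbd, r_dcbad, t_dcbad, mul_one, one_mul])
  have hconj : ∀ x : Q, ∀ s ∈ S, x * s * x⁻¹ ∈ S := by
    have key : ∀ x ∈ Subgroup.closure ({a, b, c, d} : Set Q), ∀ s ∈ S, x * s * x⁻¹ ∈ S := by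
      intro x hx
      induction hx using Subgroup.closure_induction with
      | one => intro s hs; simpa using hs
      | mem y hy =>
        intro s hs
        simp only [Set.mem_insert_iff, Set.mem_singleton_iff] at hy
        rcases hy with rfl | rfl | rfl | rfl
        · rw [inv_a, mul_assoc]; exact k_a s hs
        · rw [inv_b, mul_assoc]; exact k_b s hs
        · rw [inv_c, mul_assoc]; exact k_c s hs
        · rw [inv_d, mul_assoc]; exact k_d s hs
      | mul y z _ _ ihy ihz =>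
        intro s hs
        have := ihy _ (ihz s hs)
        have e : y * z * s * (y * z)⁻¹ = y * (z * s * z⁻¹) * y⁻¹ := by group
        rw [e]; exact this
      | inv y _ ihy =>
        intro s hs
        -- conjugation by y is an injective self-map of the finite set S, hence surjective
        have hSf : S.Finite := by simp only [S]; exact Set.toFinite _
        have hinj : Set.InjOn (fun s => y * s * y⁻¹) S := by
          intro u _ v _ huv
          have : y * u * y⁻¹ = y * v * y⁻¹ := huv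
          exact mul_left_cancel (mul_right_cancel this)
        have hmaps : Set.MapsTo (fun s => y * s * y⁻¹) S S := fun u hu => ihy u hu
        have hsurj := (hSf.injOn_iff_bijOn_of_mapsTo hmaps).1 hinj
        obtain ⟨u, hu, hus⟩ := hsurj.surjOn hs
        have hus' : y * u * y⁻¹ = s := hus
        rw [← hus']
        have e : y⁻¹ * (y * u * y⁻¹) * y⁻¹⁻¹ = u := by group
        rw [e]; exact hu
    intro x
    exact key x (by rw [hgen]; trivial)
  have hSf : S.Finite := by simp only [S]; exact Set.toFinite _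
  have hfin := dietzmann S hinv hconj hSf
  have htop : Subgroup.closure S = ⊤ := by
    rw [eq_top_iff, ← hgen]
    refine Subgroup.closure_mono ?_
    intro x hx
    simp only [Set.mem_insert_iff, Set.mem_singleton_iff] at hx
    simp only [S, Set.mem_insert_iff, Set.mem_singleton_iff]
    tauto
  rw [htop] at hfin
  exact (Subgroup.topEquiv (G := Q)).toEquiv.finite_iff.1 hfin

end Pool.Agent.Helper541.OTC
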