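import Pool.Agent.Helper541.OTC.Sound3

set_option autoImplicit false

namespace Pool.Agent.Helper541.OTC

variable {G : Type*} [Group G]

section
variable {pt mt it at' : ℕ} (T : TabProp pt mt it at')
include T

theorem all_holds {par : ℕ → ℕ} {c : G} (hcc : c * c = 1) {R J : ℕ → ℕ} {M : ℕ}
    (h : allb M (chk mt it at' R J par) = true) : ∀ t < M, HoldsR pt par c (R t) := by
  intro t
  induction t using Nat.strong_induction_on with
  | _ t ih =>
    intro ht
    exact chk_sound T hcc (fun id hid => ih id hid (by omega)) (allb_sound h t ht)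

theorem cov_sound {par : ℕ → ℕ} {c : G} (hcc : c * c = 1) {R C rank : ℕ → ℕ} {M : ℕ}
    (hR : ∀ t < M, HoldsR pt par c (R t))
    (h : allb 2048 (cov mt it at' R C rank M) = true) {β : Fin 5 → G} (hβ : Good c β)
    {i S : ℕ} (hi : i < 2048) (hr : rank i ≠ 0) (hS : S < 32) :
    ∃ i' V' s' : ℕ, i' < 2048 ∧ rank i' ≠ 0 ∧ V' < 32 ∧ s' < 120 ∧
      c * X pt par c β S i 0 * c = X pt par c β V' i' s' := by
  have h1 := allb_sound h i hi
  unfold cov at h1
  simp only [strict_eq] at h1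
  have hb : Nat.beq (rank i) 0 = false := by
    cases hh : Nat.beq (rank i) 0 with
    | false => rfl
    | true => exact absurd (Nat.eq_of_beq_eq_true hh) hr
  rw [hb, cond_false] at h1
  have h2 := allb_sound h1 S hS
  obtain ⟨i', V', s', n, hi', hV', hs', hk, hX⟩ := runK_sound T hcc hR hβ (m := 0)
    (by norm_num) _ _ _ _ _ _ _ hi hS (show 0 < 120 by norm_num) h2
  rw [zero_add] at hk
  obtain ⟨k1, k2⟩ := cond_true_left hk
  have k1' : n % 2 = 1 := Nat.eq_of_beq_eq_true k1
  refine ⟨i', V', s', hi', ?_, hV', hs', ?_⟩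
  · intro h0
    rw [h0] at k2
    simp [Nat.beq] at k2
  · rw [hX, bS_zero, mul_one]
    have c1 : c⁻¹ = c := inv_eq_of_mul_eq_one_left hcc
    have c2 : c ^ 2 = 1 := by rw [pow_two, hcc]
    have e1 : c ^ n = c := by
      conv_lhs => rw [← Nat.div_add_mod n 2, pow_add, pow_mul, c2, one_pow, one_mul, k1', pow_one]
    rw [e1, c1]

/-- the finite set of conjugates -/
def CC (pt : ℕ) (par rank : ℕ → ℕ) (c : G) (β : Fin 5 → G) : Set G :=
  {x | ∃ i V s : ℕ, i < 2048 ∧ rank i ≠ 0 ∧ V < 32 ∧ s < 120 ∧ x = X pt par c β V i s}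

omit T in
theorem CC_finite (par rank : ℕ → ℕ) (c : G) (β : Fin 5 → G) :
    (CC pt par rank c β).Finite := by
  have : (Set.range fun p : Fin 2048 × Fin 32 × Fin 120 =>
      X pt par c β p.2.1.val p.1.val p.2.2.val).Finite := Set.finite_range _
  refine this.subset ?_
  rintro x ⟨i, V, s, hi, -, hV, hs, rfl⟩
  exact ⟨(⟨i, hi⟩, ⟨V, hV⟩, ⟨s, hs⟩), rfl⟩

theorem mem_CC_c {par rank : ℕ → ℕ} {c : G} {β : Fin 5 → G} (hr : rank 0 ≠ 0) :
    c ∈ CC pt par rank c β := by
  refine ⟨0, 0, 0, by norm_num, hr, by norm_num, by norm_num, ?_⟩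
  rw [X_zero T, bS_zero, E_zero]
  simp

theorem X_frame {par : ℕ → ℕ} {c : G} {β : Fin 5 → G} (hβ : Good c β) {V i s a : ℕ}
    (hV : V < 32) (hs : s < 120) (ha : a < 120) :
    X pt par c (β ∘ pf pt a) V i s = X pt par c β (actT at' a V) i (mulT mt a s) := by
  unfold X
  rw [bS_act T hβ.inv hβ.comm ha hV, pf_mul T ha hs, Function.comp_assoc]

theorem CC_conj_c {par : ℕ → ℕ} {c : G} (hcc : c * c = 1) {R C rank : ℕ → ℕ} {M : ℕ}
    (hR : ∀ t < M, HoldsR pt par c (R t))
    (h : allb 2048 (cov mt it at' R C rank M) = true) {β : Fin 5 → G} (hβ : Good c β)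
    {x : G} (hx : x ∈ CC pt par rank c β) : c * x * c ∈ CC pt par rank c β := by
  obtain ⟨i, V, s, hi, hr, hV, hs, rfl⟩ := hx
  have hS : actT at' (invT it s) V < 32 := actT_lt T _ _
  obtain ⟨i', V', s', hi', hr', hV', hs', he⟩ := cov_sound T hcc hR h (hβ.comp T hs) hi hr hS
  rw [X_frame T hβ hS (by norm_num) hs, X_frame T hβ hV' hs' hs, T.aa s hs V hV] at he
  refine ⟨i', actT at' s V', mulT mt s s', hi', hr', actT_lt T _ _, T.mlt s hs s' hs', ?_⟩
  rw [← he]
  have : X pt par c β V i s = X pt par c β V i (mulT mt s 0) := by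
    unfold X
    rw [pf_mul T hs (by norm_num), pf_zero T]
    rfl
  rw [this]

theorem CC_conj_b {par : ℕ → ℕ} {c : G} {rank : ℕ → ℕ} {β : Fin 5 → G} (hβ : Good c β)
    {m : ℕ} (hm : m < 32) {x : G} (hx : x ∈ CC pt par rank c β) :
    bS β m * x * bS β m ∈ CC pt par rank c β := by
  obtain ⟨i, V, s, hi, hr, hV, hs, rfl⟩ := hx
  exact ⟨i, V ^^^ m, s, hi, hr, xor_lt T hV hm, hs, (X_mask T hβ V i s m).symm⟩

theorem CC_map {par : ℕ → ℕ} {c : G} {rank : ℕ → ℕ} {β : Fin 5 → G} (hβ : Good c β)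
    {a : ℕ} (ha : a < 120) (φ : G →* G) (hφc : φ c = c) (hφ : φ ∘ β = β ∘ pf pt a)
    {x : G} (hx : x ∈ CC pt par rank c β) : φ x ∈ CC pt par rank c β := by
  obtain ⟨i, V, s, hi, hr, hV, hs, rfl⟩ := hx
  refine ⟨i, actT at' a V, mulT mt a s, hi, hr, actT_lt T _ _, T.mlt a ha s hs, ?_⟩
  rw [← X_frame T hβ hV hs ha]
  unfold X
  rw [map_mul, map_mul, map_bS, map_E, hφc, ← Function.comp_assoc, hφ]

omit T in
theorem E_inv {par : ℕ → ℕ} {c : G} (hcc : c * c = 1) (i : ℕ) : ∀ {β : Fin 5 → G}, Good c β →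
    E par c i β * E par c i β = 1 := by
  induction i using Nat.strong_induction_on with
  | _ i ih =>
    intro β hβ
    by_cases h : par i % 2048 < i
    · rw [E_lt par c i h]
      have h1 := ih _ h hβ
      have h2 := bS_self hβ.inv hβ.comm (par i / 2048)
      generalize bS β (par i / 2048) = b at *
      generalize E par c (par i % 2048) β = e at *
      calc c * (b * e * b) * c * (c * (b * e * b) * c)
          = c * (b * e * b) * (c * c) * (b * e * b) * c := by simp only [mul_assoc]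
        _ = c * (b * e * (b * b) * e * b) * c := by rw [hcc]; simp only [mul_assoc, one_mul]
        _ = c * (b * (e * e) * b) * c := by rw [h2]; simp only [mul_assoc, one_mul]
        _ = c * (b * b) * c := by rw [h1]; simp only [mul_one]
        _ = 1 := by rw [h2, mul_one, hcc]
    · rw [E, dif_neg h, hcc]

theorem CC_inv {par : ℕ → ℕ} {c : G} (hcc : c * c = 1) {rank : ℕ → ℕ} {β : Fin 5 → G}
    (hβ : Good c β) {x : G} (hx : x ∈ CC pt par rank c β) : x * x = 1 := by
  obtain ⟨i, V, s, hi, hr, hV, hs, rfl⟩ := hx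
  unfold X
  have h1 := E_inv hcc i (par := par) (hβ.comp T hs)
  have h2 := bS_self hβ.inv hβ.comm V
  generalize bS β V = b at *
  generalize E par c i (β ∘ pf pt s) = e at *
  calc b * e * b * (b * e * b) = b * e * (b * b) * e * b := by simp only [mul_assoc]
    _ = b * (e * e) * b := by rw [h2]; simp only [mul_assoc, one_mul]
    _ = 1 := by rw [h1, mul_one, h2]

end

end Pool.Agent.Helper541.OTC
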