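import Mathlib

/-! Star generators (job solution by helper525). -/

set_option autoImplicit false

namespace Pool.Agent.Helper541.OTC

theorem sg_cjm {G : Type*} [Group G] {r : G} (hr : r * r = 1) (x y : G) :
    r * (x * y) * r = (r * x * r) * (r * y * r) := by
  have h : (r * x * r) * (r * y * r) = r * x * (r * r) * y * r := by simp only [mul_assoc]
  rw [h, hr]; simp only [mul_assoc, one_mul]

theorem sg_inv {G : Type*} [Group G] {r x y : G} (hr : r * r = 1) (h : r * x * r = y) :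
    r * y * r = x := by
  rw [← h]
  have h1 : r * (r * x * r) * r = (r * r) * x * (r * r) := by simp only [mul_assoc]
  rw [h1, hr, one_mul, mul_one]

theorem sg_fix {G : Type*} [Group G] {r x : G} (hr : r * r = 1) (h : r * x = x * r) :
    r * x * r = x := by
  rw [h, mul_assoc, hr, mul_one]

theorem sg_cc {G : Type*} [Group G] {r s x y : G} (h : r * s = s * r) (hx : r * x * r = y) :
    r * (s * x * s) * r = s * y * s := by
  have h1 : r * (s * x * s) * r = (r * s) * x * (s * r) := by simp only [mul_assoc]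
  rw [h1, h, ← h, ← hx]
  have h2 : s * r * x * (r * s) = s * (r * x * r) * s := by simp only [mul_assoc]
  rw [← h2, h]

theorem sg_braid {G : Type*} [Group G] {r s x : G} (h : r * s * r = s * r * s)
    (hx : s * x * s = x) :
    r * (s * (r * x * r) * s) * r = s * (r * x * r) * s := by
  have h1 : r * (s * (r * x * r) * s) * r = (r * s * r) * x * (r * s * r) := by
    simp only [mul_assoc]
  rw [h1, h]
  have h2 : s * r * s * x * (s * r * s) = s * r * (s * x * s) * r * s := by simp only [mul_assoc]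
  rw [h2, hx]
  simp only [mul_assoc]

theorem sg_comm {G : Type*} [Group G] {r x y x' y' : G} (hr : r * r = 1) (h : x * y = y * x)
    (hx : r * x * r = x') (hy : r * y * r = y') : x' * y' = y' * x' := by
  rw [← hx, ← hy, ← sg_cjm hr, ← sg_cjm hr, h]

theorem sg_pow {G : Type*} [Group G] {r x y : G} (hr : r * r = 1) (n : ℕ) (h : x ^ n = 1)
    (hx : r * x * r = y) : y ^ n = 1 := by
  have hri : r⁻¹ = r := inv_eq_of_mul_eq_one_left hr
  have : y = r * x * r⁻¹ := by rw [hri, hx]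
  rw [this, conj_pow, h, mul_one, mul_inv_cancel]

theorem sg_main {G : Type*} [Group G] (c s t b2 b3 r1 r3 : G)
    (hc : c * c = 1) (hs : s * s = 1) (ht : t * t = 1) (h2 : b2 * b2 = 1) (h3 : b3 * b3 = 1)
    (hst : s * t = t * s) (hs2 : s * b2 = b2 * s) (hs3 : s * b3 = b3 * s)
    (ht2 : t * b2 = b2 * t) (ht3 : t * b3 = b3 * t) (h23 : b2 * b3 = b3 * b2)
    (hcs : c * s * c = s * c * s) (hct : c * t * c = t * c * t) (hc2 : c * b2 * c = b2 * c * b2)
    (hc3 : c * b3 * c = b3 * c * b3)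
    (hr1 : r1 * r1 = 1) (hr3 : r3 * r3 = 1) (hr13 : r1 * r3 = r3 * r1)
    (hr3c : r3 * c = c * r3) (hr1c : r1 * c = c * r1) (hr3s : r3 * s * r3 = t)
    (hr3b2 : r3 * b2 = b2 * r3) (hr1s : r1 * s = s * r1) (hr1t : r1 * t = t * r1)
    (hr12 : r1 * b2 * r1 = b3)
    (hrel : (r1 * b2 * (c * s * r3 * s * c)) ^ 6 = 1) : (c * (s * t * b2 * b3)) ^ 6 = 1 := by
  -- the product `g`
  have e1 : c * s * r3 * s * c = c * (s * t) * c * r3 := by
    have h : s * r3 = r3 * t := by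
      rw [← hr3s]
      have : r3 * (r3 * s * r3) = (r3 * r3) * s * r3 := by simp only [mul_assoc]
      rw [this, hr3, one_mul]
    have h' : r3 * s = t * r3 := by
      rw [← hr3s, mul_assoc, hr3, mul_one]
    calc c * s * r3 * s * c = c * s * (r3 * s) * c := by simp only [mul_assoc]
      _ = c * s * t * (r3 * c) := by rw [h']; simp only [mul_assoc]
      _ = _ := by rw [hr3c]; simp only [mul_assoc]
  rw [e1] at hrel
  have hr3P : r3 * (s * t) = s * t * r3 := by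
    have h' : r3 * s = t * r3 := by
      rw [← hr3s, mul_assoc, hr3, mul_one]
    have h'' : r3 * t = s * r3 := by
      rw [← hr3s]
      have : r3 * (r3 * s * r3) = (r3 * r3) * s * r3 := by simp only [mul_assoc]
      rw [this, hr3, one_mul]
    calc r3 * (s * t) = (r3 * s) * t := by simp only [mul_assoc]
      _ = t * (r3 * t) := by rw [h']; simp only [mul_assoc]
      _ = (t * s) * r3 := by rw [h'']; simp only [mul_assoc]
      _ = _ := by rw [hst]
  obtain ⟨P, hP⟩ : ∃ P, P = s * t := ⟨_, rfl⟩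
  rw [← hP] at hrel hr3P e1
  have hr1P : r1 * P = P * r1 := by
    rw [hP, ← mul_assoc, hr1s, mul_assoc, hr1t, mul_assoc]
  have hPP : P * P = 1 := by
    rw [hP]
    calc s * t * (s * t) = s * (t * s) * t := by simp only [mul_assoc]
      _ = (s * s) * (t * t) := by rw [← hst]; simp only [mul_assoc]
      _ = 1 := by rw [hs, ht, one_mul]
  have hP2 : P * b2 = b2 * P := by
    rw [hP, mul_assoc, ht2, ← mul_assoc, hs2, mul_assoc]
  have hP3 : P * b3 = b3 * P := by
    rw [hP, mul_assoc, ht3, ← mul_assoc, hs3, mul_assoc]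
  -- g ^ 2
  obtain ⟨K, hK⟩ : ∃ K, K = c * P * c := ⟨_, rfl⟩
  rw [← hK] at hrel e1
  have hr3K : r3 * K = K * r3 := by
    rw [hK]
    calc r3 * (c * P * c) = (r3 * c) * P * c := by simp only [mul_assoc]
      _ = c * (r3 * P) * c := by rw [hr3c]; simp only [mul_assoc]
      _ = c * P * (r3 * c) := by rw [hr3P]; simp only [mul_assoc]
      _ = _ := by rw [hr3c]; simp only [mul_assoc]
  have hr1K : r1 * K = K * r1 := by
    rw [hK]
    calc r1 * (c * P * c) = (r1 * c) * P * c := by simp only [mul_assoc]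
      _ = c * (r1 * P) * c := by rw [hr1c]; simp only [mul_assoc]
      _ = c * P * (r1 * c) := by rw [hr1P]; simp only [mul_assoc]
      _ = _ := by rw [hr1c]; simp only [mul_assoc]
  have e2 : (r1 * b2 * (K * r3)) ^ 2 = b3 * K * b2 * K := by
    rw [pow_two]
    calc r1 * b2 * (K * r3) * (r1 * b2 * (K * r3)) = r1 * b2 * K * (r3 * r1) * b2 * K * r3 := by
          simp only [mul_assoc]
      _ = r1 * b2 * K * r1 * (r3 * b2) * K * r3 := by rw [← hr13]; simp only [mul_assoc]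
      _ = r1 * b2 * K * r1 * b2 * (r3 * K) * r3 := by rw [hr3b2]; simp only [mul_assoc]
      _ = r1 * b2 * K * r1 * b2 * K * (r3 * r3) := by rw [hr3K]; simp only [mul_assoc]
      _ = r1 * b2 * (K * r1) * b2 * K := by rw [hr3, mul_one]; simp only [mul_assoc]
      _ = (r1 * b2 * r1) * K * b2 * K := by rw [← hr1K]; simp only [mul_assoc]
      _ = _ := by rw [hr12]
  have e3 : (b3 * K * b2 * K) ^ 3 = 1 := by
    rw [← e2, ← pow_mul]
    exact hrel
  -- c commutes with P c P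
  have e4 : c * (P * c * P) = (P * c * P) * c := by
    have f1 : P * c * P = s * (c * t * c) * s := by
      rw [hct, hP]
      calc s * t * c * (s * t) = s * t * c * (t * s) := by rw [hst]
        _ = _ := by simp only [mul_assoc]
    rw [f1]
    calc c * (s * (c * t * c) * s) = (c * s * c) * t * c * s := by simp only [mul_assoc]
      _ = s * c * (s * t) * c * s := by rw [hcs]; simp only [mul_assoc]
      _ = s * c * t * (s * c * s) := by rw [hst]; simp only [mul_assoc]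
      _ = _ := by rw [← hcs]; simp only [mul_assoc]
  obtain ⟨D, hD⟩ : ∃ D, D = P * c * P := ⟨_, rfl⟩
  rw [← hD] at e4
  have e5 : K = c * D * P := by
    rw [hD, hK]
    calc c * P * c = c * P * c * (P * P) := by rw [hPP, mul_one]
      _ = _ := by simp only [mul_assoc]
  have e6 : K = P * D * c := by
    rw [hD, hK]
    calc c * P * c = (P * P) * (c * P * c) := by rw [hPP, one_mul]
      _ = P * (P * c * P) * c := by simp only [mul_assoc]
  have e7 : K * b2 * K = c * D * b2 * D * c := by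
    calc K * b2 * K = c * D * P * b2 * (P * D * c) := by rw [← e5, ← e6]
      _ = c * D * (P * b2) * P * D * c := by simp only [mul_assoc]
      _ = c * D * b2 * (P * P) * D * c := by rw [hP2]; simp only [mul_assoc]
      _ = _ := by rw [hPP, mul_one]
  have e8 : c * c = 1 := hc
  obtain ⟨Q, hQ⟩ : ∃ Q, Q = P * b2 * b3 := ⟨_, rfl⟩
  rw [← hP, ← hQ]
  have e9 : (b3 * c) * (b3 * K * b2 * K) * (b3 * c)⁻¹ = (c * Q) ^ 2 := by
    have hinv : (b3 * c)⁻¹ = c * b3 := by
      rw [mul_inv_rev, inv_eq_of_mul_eq_one_left hc, inv_eq_of_mul_eq_one_left h3]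
    rw [hinv]
    have g1 : b3 * c * (b3 * K * b2 * K) * (c * b3) =
        (b3 * c * b3) * (K * b2 * K) * (c * b3) := by simp only [mul_assoc]
    rw [g1, e7, ← hc3]
    have g2 : c * b3 * c * (c * D * b2 * D * c) * (c * b3) =
        c * b3 * (c * c) * D * b2 * D * (c * c) * b3 := by simp only [mul_assoc]
    rw [g2, hc, mul_one, mul_one]
    have g3 : D * b2 * D = P * b2 * c * b2 * P := by
      rw [hD]
      calc P * c * P * b2 * (P * c * P) = P * c * (P * b2) * P * c * P := by simp only [mul_assoc]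
        _ = P * c * b2 * (P * P) * c * P := by rw [hP2]; simp only [mul_assoc]
        _ = P * (c * b2 * c) * P := by rw [hPP, mul_one]; simp only [mul_assoc]
        _ = _ := by rw [hc2]; simp only [mul_assoc]
    have g4 : c * b3 * D * b2 * D * b3 = c * b3 * (D * b2 * D) * b3 := by simp only [mul_assoc]
    rw [g4, g3]
    have g5 : b3 * (P * b2) = Q := by
      rw [hQ, ← mul_assoc, ← hP3, mul_assoc, ← h23, mul_assoc]
    have g6 : b2 * P * b3 = Q := by
      rw [hQ, ← hP2]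
    calc c * b3 * (P * b2 * c * b2 * P) * b3 = c * (b3 * (P * b2)) * c * (b2 * P * b3) := by
          simp only [mul_assoc]
      _ = (c * Q) ^ 2 := by rw [g5, g6, pow_two]; simp only [mul_assoc]
  have e10 : ((c * Q) ^ 2) ^ 3 = 1 := by
    rw [← e9, conj_pow, e3, mul_one, mul_inv_cancel]
  rw [← pow_mul] at e10
  exact e10

theorem sg_ord3 {G : Type*} [Group G] {c s : G} (hc : c * c = 1) (hs : s * s = 1) :
    (c * s) ^ 3 = 1 ↔ c * s * c = s * c * s := by
  have h1 : (c * s) ^ 3 = (c * s * c) * (s * c * s) := by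
    rw [pow_succ, pow_two]; simp only [mul_assoc]
  have h2 : (s * c * s) * (s * c * s) = 1 := by
    have : (s * c * s) * (s * c * s) = s * c * (s * s) * c * s := by simp only [mul_assoc]
    rw [this, hs, mul_one]
    have : s * c * c * s = s * (c * c) * s := by simp only [mul_assoc]
    rw [this, hc, mul_one, hs]
  constructor
  · intro h
    rw [h1] at h
    have := eq_inv_of_mul_eq_one_left h
    rw [this, inv_eq_of_mul_eq_one_left h2]
  · intro h
    rw [h1, h, h2]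

/-- Star generators of the group of the locally toroidal polytopes {3,3,3,4,3}_(3,3,0,0). -/
theorem star_gens {G : Type*} [Group G] (r0 r1 r2 r3 r4 r5 : G)
    (h0 : r0 * r0 = 1) (h1 : r1 * r1 = 1) (h2 : r2 * r2 = 1) (h3 : r3 * r3 = 1)
    (h4 : r4 * r4 = 1) (h5 : r5 * r5 = 1)
    (h01 : r0 * r1 * r0 = r1 * r0 * r1) (h12 : r1 * r2 * r1 = r2 * r1 * r2)
    (h23 : r2 * r3 * r2 = r3 * r2 * r3) (h45 : r4 * r5 * r4 = r5 * r4 * r5)
    (h34 : r3 * r4 * r3 * r4 = r4 * r3 * r4 * r3)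
    (h02 : r0 * r2 = r2 * r0) (h03 : r0 * r3 = r3 * r0) (h04 : r0 * r4 = r4 * r0)
    (h05 : r0 * r5 = r5 * r0) (h13 : r1 * r3 = r3 * r1) (h14 : r1 * r4 = r4 * r1)
    (h15 : r1 * r5 = r5 * r1) (h24 : r2 * r4 = r4 * r2) (h25 : r2 * r5 = r5 * r2)
    (h35 : r3 * r5 = r5 * r3)
    (hrel : (r1 * (r2 * r3 * r4 * r3 * r2) * (r5 * r4 * r3 * r4 * r5)) ^ 6 = 1) :
    ∃ b : Fin 5 → G, b 0 = r4 ∧ (∀ k, b k * b k = 1) ∧ (∀ i j, b i * b j = b j * b i) ∧
      (∀ k, (r5 * b k) ^ 3 = 1) ∧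
      (r5 * (b 1 * b 2 * b 3 * b 4)) ^ 6 = 1 ∧ (r5 * (b 0 * b 2 * b 3 * b 4)) ^ 6 = 1 ∧
      (r5 * (b 0 * b 1 * b 3 * b 4)) ^ 6 = 1 ∧ (r5 * (b 0 * b 1 * b 2 * b 4)) ^ 6 = 1 ∧
      (r5 * (b 0 * b 1 * b 2 * b 3)) ^ 6 = 1 ∧
      (∀ k, r3 * b k * r3 = b (Equiv.swap 0 1 k)) ∧ (∀ k, r2 * b k * r2 = b (Equiv.swap 1 2 k)) ∧
      (∀ k, r1 * b k * r1 = b (Equiv.swap 2 3 k)) ∧
      (∀ k, r0 * b k * r0 = b (Equiv.swap 3 4 k)) := by
  obtain ⟨b1, hb1⟩ : ∃ b1, b1 = r3 * r4 * r3 := ⟨_, rfl⟩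
  obtain ⟨b2, hb2⟩ : ∃ b2, b2 = r2 * b1 * r2 := ⟨_, rfl⟩
  obtain ⟨b3, hb3⟩ : ∃ b3, b3 = r1 * b2 * r1 := ⟨_, rfl⟩
  obtain ⟨b4, hb4⟩ : ∃ b4, b4 = r0 * b3 * r0 := ⟨_, rfl⟩
  -- action
  have a30 : r3 * r4 * r3 = b1 := hb1.symm
  have a31 : r3 * b1 * r3 = r4 := sg_inv h3 a30
  have a20 : r2 * r4 * r2 = r4 := sg_fix h2 h24
  have a21 : r2 * b1 * r2 = b2 := hb2.symm
  have a22 : r2 * b2 * r2 = b1 := sg_inv h2 a21
  have a10 : r1 * r4 * r1 = r4 := sg_fix h1 h14
  have a11 : r1 * b1 * r1 = b1 := by rw [hb1]; exact sg_cc h13 a10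
  have a12 : r1 * b2 * r1 = b3 := hb3.symm
  have a13 : r1 * b3 * r1 = b2 := sg_inv h1 a12
  have a00 : r0 * r4 * r0 = r4 := sg_fix h0 h04
  have a01 : r0 * b1 * r0 = b1 := by rw [hb1]; exact sg_cc h03 a00
  have a02 : r0 * b2 * r0 = b2 := by rw [hb2]; exact sg_cc h02 a01
  have a03 : r0 * b3 * r0 = b4 := hb4.symm
  have a04 : r0 * b4 * r0 = b3 := sg_inv h0 a03
  have a32 : r3 * b2 * r3 = b2 := by rw [hb2, hb1]; exact sg_braid h23.symm a20
  have a33 : r3 * b3 * r3 = b3 := by rw [hb3]; exact sg_cc h13.symm a32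
  have a34 : r3 * b4 * r3 = b4 := by rw [hb4]; exact sg_cc h03.symm a33
  have a23 : r2 * b3 * r2 = b3 := by rw [hb3, hb2]; exact sg_braid h12.symm a11
  have a24 : r2 * b4 * r2 = b4 := by rw [hb4]; exact sg_cc h02.symm a23
  have a14 : r1 * b4 * r1 = b4 := by rw [hb4, hb3]; exact sg_braid h01.symm a02
  have a05 : r0 * r5 * r0 = r5 := sg_fix h0 h05
  have a15 : r1 * r5 * r1 = r5 := sg_fix h1 h15
  have a25 : r2 * r5 * r2 = r5 := sg_fix h2 h25
  have a35 : r3 * r5 * r3 = r5 := sg_fix h3 h35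
  -- squares
  have sq : ∀ r x y : G, r * r = 1 → x * x = 1 → r * x * r = y → y * y = 1 := by
    intro r x y hr hx hy
    rw [← hy, ← sg_cjm hr, hx, mul_one, hr]
  have s1 : b1 * b1 = 1 := sq _ _ _ h3 h4 a30
  have s2 : b2 * b2 = 1 := sq _ _ _ h2 s1 a21
  have s3 : b3 * b3 = 1 := sq _ _ _ h1 s2 a12
  have s4 : b4 * b4 = 1 := sq _ _ _ h0 s3 a03
  -- commutations
  have c01 : r4 * b1 = b1 * r4 := by
    rw [hb1]
    simp only [← mul_assoc]
    exact h34.symm
  have c02 : r4 * b2 = b2 * r4 := sg_comm h2 c01 a20 a21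
  have c12 : b1 * b2 = b2 * b1 := sg_comm h3 c02 a30 a32
  have c03 : r4 * b3 = b3 * r4 := sg_comm h1 c02 a10 a12
  have c13 : b1 * b3 = b3 * b1 := sg_comm h1 c12 a11 a12
  have c23 : b2 * b3 = b3 * b2 := sg_comm h2 c13 a21 a23
  have c04 : r4 * b4 = b4 * r4 := sg_comm h0 c03 a00 a03
  have c14 : b1 * b4 = b4 * b1 := sg_comm h0 c13 a01 a03
  have c24 : b2 * b4 = b4 * b2 := sg_comm h0 c23 a02 a03
  have c34 : b3 * b4 = b4 * b3 := sg_comm h1 c24 a12 a14
  -- cubes
  have cu : ∀ r x y : G, r * r = 1 → r * r5 * r = r5 → (r5 * x) ^ 3 = 1 → r * x * r = y →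
      (r5 * y) ^ 3 = 1 := by
    intro r x y hr hr5 hx hy
    refine sg_pow hr 3 hx ?_
    rw [sg_cjm hr, hr5, hy]
  have t0 : (r5 * r4) ^ 3 = 1 := (sg_ord3 h5 h4).mpr h45.symm
  have t1 : (r5 * b1) ^ 3 = 1 := cu _ _ _ h3 a35 t0 a30
  have t2 : (r5 * b2) ^ 3 = 1 := cu _ _ _ h2 a25 t1 a21
  have t3 : (r5 * b3) ^ 3 = 1 := cu _ _ _ h1 a15 t2 a12
  have t4 : (r5 * b4) ^ 3 = 1 := cu _ _ _ h0 a05 t3 a03
  have comm_of : ∀ r x : G, r * r = 1 → r * x * r = x → r * x = x * r := by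
    intro r x hr h
    have : r * x * r * r = x * r := by rw [h]
    rwa [mul_assoc, hr, mul_one] at this
  -- sixth powers
  have u4 : (r5 * (r4 * b1 * b2 * b3)) ^ 6 = 1 := by
    refine sg_main r5 r4 b1 b2 b3 r1 r3 h5 h4 s1 s2 s3 c01 c02 c03 c12 c13 c23
      ((sg_ord3 h5 h4).mp t0) ((sg_ord3 h5 s1).mp t1) ((sg_ord3 h5 s2).mp t2)
      ((sg_ord3 h5 s3).mp t3) h1 h3 h13 h35 h15 a30 (comm_of _ _ h3 a32) h14
      (comm_of _ _ h1 a11) a12 ?_
    have : r2 * r3 * r4 * r3 * r2 = b2 := by rw [hb2, hb1]; simp only [mul_assoc]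
    rw [this] at hrel
    exact hrel
  have mv : ∀ r x y z w x' y' z' w' : G, r * r = 1 → r * r5 * r = r5 → r * x * r = x' →
      r * y * r = y' → r * z * r = z' → r * w * r = w' → (r5 * (x * y * z * w)) ^ 6 = 1 →
      (r5 * (x' * y' * z' * w')) ^ 6 = 1 := by
    intro r x y z w x' y' z' w' hr hr5 hx hy hz hw h
    refine sg_pow hr 6 h ?_
    rw [sg_cjm hr, sg_cjm hr, sg_cjm hr, sg_cjm hr, hr5, hx, hy, hz, hw]
  have u3 := mv _ _ _ _ _ _ _ _ _ h0 a05 a00 a01 a02 a03 u4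
  have u2 := mv _ _ _ _ _ _ _ _ _ h1 a15 a10 a11 a12 a14 u3
  have u1 := mv _ _ _ _ _ _ _ _ _ h2 a25 a20 a21 a23 a24 u2
  have u0 := mv _ _ _ _ _ _ _ _ _ h3 a35 a30 a32 a33 a34 u1
  refine ⟨![r4, b1, b2, b3, b4], rfl, ?_, ?_, ?_, u0, u1, u2, u3, u4, ?_, ?_, ?_, ?_⟩
  · intro k
    fin_cases k
    exacts [h4, s1, s2, s3, s4]
  · intro i j
    fin_cases i <;> fin_cases j
    exacts [rfl, c01, c02, c03, c04, c01.symm, rfl, c12, c13, c14, c02.symm, c12.symm, rfl, c23,
      c24, c03.symm, c13.symm, c23.symm, rfl, c34, c04.symm, c14.symm, c24.symm, c34.symm, rfl]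
  · intro k
    fin_cases k
    exacts [t0, t1, t2, t3, t4]
  · intro k
    fin_cases k
    exacts [a30, a31, a32, a33, a34]
  · intro k
    fin_cases k
    exacts [a20, a21, a22, a23, a24]
  · intro k
    fin_cases k
    exacts [a10, a11, a12, a13, a14]
  · intro k
    fin_cases k
    exacts [a00, a01, a02, a03, a04]

end Pool.Agent.Helper541.OTC
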