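import Pool.Agent.Helper541.OTC.Chk1
import Pool.Agent.Helper541.OTC.Chk2
import Pool.Agent.Helper541.OTC.Sound4
import Pool.Agent.Helper541.OTC.GrpA4
import Pool.Agent.Helper541.OTC.StarGens

/-!
# Finiteness of the group of the locally toroidal polytopes of type {3,3,3,4,3} with s = (3,3,0,0)
-/

set_option autoImplicit false

namespace Pool.Agent.Helper541.OTC

theorem tabT : TabProp ptab mtab itab atab := tabProp _ _ _ _ tab_ok

theorem swap01 : pf ptab 24 = Equiv.swap (0 : Fin 5) 1 := by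
  funext k; fin_cases k <;> decide +kernel

theorem swap12 : pf ptab 6 = Equiv.swap (1 : Fin 5) 2 := by
  funext k; fin_cases k <;> decide +kernel

theorem swap23 : pf ptab 2 = Equiv.swap (2 : Fin 5) 3 := by
  funext k; fin_cases k <;> decide +kernel

theorem swap34 : pf ptab 1 = Equiv.swap (3 : Fin 5) 4 := by
  funext k; fin_cases k <;> decide +kernel

/-- closedness under conjugation by all elements from closedness for involutory generators -/
theorem conj_all {G : Type*} [Group G] {gens : Set G} (hgen : Subgroup.closure gens = ⊤)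
    (hinv : ∀ g ∈ gens, g * g = 1) {S : Set G} (hS : ∀ g ∈ gens, ∀ s ∈ S, g * s * g ∈ S) :
    ∀ x : G, ∀ s ∈ S, x * s * x⁻¹ ∈ S := by
  have key : ∀ x ∈ Subgroup.closure gens, (∀ s ∈ S, x * s * x⁻¹ ∈ S) ∧
      (∀ s ∈ S, x⁻¹ * s * x ∈ S) := by
    intro x hx
    induction hx using Subgroup.closure_induction with
    | mem g hg =>
      have e : g⁻¹ = g := inv_eq_of_mul_eq_one_left (hinv g hg)
      rw [e]
      exact ⟨hS g hg, hS g hg⟩
    | one => simp
    | mul x y _ _ hx hy =>
      refine ⟨fun s hs => ?_, fun s hs => ?_⟩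
      · have := hx.1 _ (hy.1 s hs)
        simpa [mul_assoc] using this
      · have := hy.2 _ (hx.2 s hs)
        simpa [mul_assoc] using this
    | inv x _ hx =>
      refine ⟨?_, ?_⟩
      · simpa using hx.2
      · simpa using hx.1
  intro x
  exact (key x (by rw [hgen]; trivial)).1

theorem good_of_star {G : Type*} [Group G] {c : G} {b : Fin 5 → G} (h1 : ∀ k, b k * b k = 1)
    (h2 : ∀ i j, b i * b j = b j * b i) (h3 : ∀ k, (c * b k) ^ 3 = 1)
    (q0 : (c * (b 1 * b 2 * b 3 * b 4)) ^ 6 = 1) (q1 : (c * (b 0 * b 2 * b 3 * b 4)) ^ 6 = 1)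
    (q2 : (c * (b 0 * b 1 * b 3 * b 4)) ^ 6 = 1) (q3 : (c * (b 0 * b 1 * b 2 * b 4)) ^ 6 = 1)
    (q4 : (c * (b 0 * b 1 * b 2 * b 3)) ^ 6 = 1) : Good c b := by
  refine ⟨h1, h2, ?_, ?_⟩
  · intro k
    have := bS_single b k.val k.isLt 1 (by norm_num)
    rw [one_mul, pow_one] at this
    rw [this]
    exact h3 k
  · intro k
    have e0 : bS b 30 = b 1 * b 2 * b 3 * b 4 := by simp [bS]
    have e1 : bS b 29 = b 0 * b 2 * b 3 * b 4 := by simp [bS]
    have e2 : bS b 27 = b 0 * b 1 * b 3 * b 4 := by simp [bS]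
    have e3 : bS b 23 = b 0 * b 1 * b 2 * b 4 := by simp [bS]
    have e4 : bS b 15 = b 0 * b 1 * b 2 * b 3 := by simp [bS]
    fin_cases k
    · change (c * bS b 30) ^ 6 = 1
      rw [e0]; exact q0
    · change (c * bS b 29) ^ 6 = 1
      rw [e1]; exact q1
    · change (c * bS b 27) ^ 6 = 1
      rw [e2]; exact q2
    · change (c * bS b 23) ^ 6 = 1
      rw [e3]; exact q3
    · change (c * bS b 15) ^ 6 = 1
      rw [e4]; exact q4

/-- conjugation by an involution permuting the frame preserves the finite set -/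
theorem conj_swap {G : Type*} [Group G] {c r : G} {b : Fin 5 → G} (hb : Good c b)
    (hr : r * r = 1) (hrc : r * c = c * r) {a : ℕ} (ha : a < 120) {σ : Fin 5 → Fin 5}
    (hσ : pf ptab a = σ) (h : ∀ k, r * b k * r = b (σ k)) {x : G}
    (hx : x ∈ CC ptab par rank c b) : r * x * r ∈ CC ptab par rank c b := by
  have ri : r⁻¹ = r := inv_eq_of_mul_eq_one_left hr
  have h1 := CC_map tabT hb ha (MulAut.conj r).toMonoidHom
    (by
      change r * c * r⁻¹ = c
      rw [hrc]; group)
    (by
      funext k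
      change r * b k * r⁻¹ = b (pf ptab a k)
      rw [ri, h k, hσ]) hx
  have h2 : (MulAut.conj r).toMonoidHom x = r * x * r := by
    change r * x * r⁻¹ = r * x * r
    rw [ri]
  rwa [h2] at h1

/-- **Finiteness theorem.** Every group generated by six elements satisfying the relations of the
string Coxeter group `[3,3,3,4,3]` and the relation
`(ρ₁ (ρ₂ρ₃ρ₄ρ₃ρ₂) (ρ₅ρ₄ρ₃ρ₄ρ₅))⁶ = 1` is finite. -/
theorem finite_main {G : Type*} [Group G] (r0 r1 r2 r3 r4 r5 : G)
    (h0 : r0 * r0 = 1) (h1 : r1 * r1 = 1) (h2 : r2 * r2 = 1) (h3 : r3 * r3 = 1)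
    (h4 : r4 * r4 = 1) (h5 : r5 * r5 = 1)
    (h01 : r0 * r1 * r0 = r1 * r0 * r1) (h12 : r1 * r2 * r1 = r2 * r1 * r2)
    (h23 : r2 * r3 * r2 = r3 * r2 * r3) (h45 : r4 * r5 * r4 = r5 * r4 * r5)
    (h34 : r3 * r4 * r3 * r4 = r4 * r3 * r4 * r3)
    (h02 : r0 * r2 = r2 * r0) (h03 : r0 * r3 = r3 * r0) (h04 : r0 * r4 = r4 * r0)
    (h05 : r0 * r5 = r5 * r0) (h13 : r1 * r3 = r3 * r1) (h14 : r1 * r4 = r4 * r1)
    (h15 : r1 * r5 = r5 * r1) (h24 : r2 * r4 = r4 * r2) (h25 : r2 * r5 = r5 * r2)
    (h35 : r3 * r5 = r5 * r3)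
    (hrel : (r1 * (r2 * r3 * r4 * r3 * r2) * (r5 * r4 * r3 * r4 * r5)) ^ 6 = 1)
    (hgen : Subgroup.closure ({r0, r1, r2, r3, r4, r5} : Set G) = ⊤) : Finite G := by
  obtain ⟨b, hb0, b1, b2, b3, q0, q1, q2, q3, q4, s3, s2, s1, s0⟩ :=
    star_gens r0 r1 r2 r3 r4 r5 h0 h1 h2 h3 h4 h5 h01 h12 h23 h45 h34 h02 h03 h04 h05 h13 h14 h15
      h24 h25 h35 hrel
  have hb : Good r5 b := good_of_star b1 b2 b3 q0 q1 q2 q3 q4
  have hR := all_holds tabT h5 (par := par) facts_ok
  set S := CC ptab par rank r5 b with hS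
  have hfin : S.Finite := CC_finite par rank r5 b
  have hinv : ∀ s ∈ S, s * s = 1 := fun s hs => CC_inv tabT h5 hb hs
  have hmem : r5 ∈ S := mem_CC_c tabT rank_zero
  have hcl : ∀ x : G, ∀ s ∈ S, x * s * x⁻¹ ∈ S := by
    refine conj_all hgen ?_ ?_
    · intro g hg
      simp only [Set.mem_insert_iff, Set.mem_singleton_iff] at hg
      rcases hg with rfl | rfl | rfl | rfl | rfl | rfl <;> assumption
    · intro g hg s hs
      simp only [Set.mem_insert_iff, Set.mem_singleton_iff] at hg
      rcases hg with rfl | rfl | rfl | rfl | rfl | rfl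
      · exact conj_swap hb h0 h05 (by norm_num) swap34 s0 hs
      · exact conj_swap hb h1 h15 (by norm_num) swap23 s1 hs
      · exact conj_swap hb h2 h25 (by norm_num) swap12 s2 hs
      · exact conj_swap hb h3 h35 (by norm_num) swap01 s3 hs
      · have := CC_conj_b tabT hb (m := 1) (by norm_num) hs
        have e : bS b 1 = g := by rw [← hb0]; simp [bS]
        rwa [e] at this
      · exact CC_conj_c tabT h5 hR cov_ok hb hs
  let N : Subgroup G := Subgroup.closure S
  have hN : N.Normal := closure_normal S hcl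
  have hNf : Finite N := dietzmann S hinv hcl hfin
  let π := QuotientGroup.mk' N
  have p5 : π r5 = 1 := (QuotientGroup.eq_one_iff _).2 (Subgroup.subset_closure hmem)
  have p4 : π r4 = 1 := by
    have e := congrArg π h45
    simp only [map_mul, p5, mul_one, one_mul] at e
    have e2 := congrArg π h4
    simp only [map_mul, map_one] at e2
    rw [← e]; exact e2
  have hq : Finite (G ⧸ N) := by
    refine finite_A4 (π r0) (π r1) (π r2) (π r3) ?_ ?_ ?_ ?_ ?_ ?_ ?_ ?_ ?_ ?_ ?_
    · rw [← map_mul, h0, map_one]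
    · rw [← map_mul, h1, map_one]
    · rw [← map_mul, h2, map_one]
    · rw [← map_mul, h3, map_one]
    · simp only [← map_mul, h01]
    · simp only [← map_mul, h12]
    · simp only [← map_mul, h23]
    · simp only [← map_mul, h02]
    · simp only [← map_mul, h03]
    · simp only [← map_mul, h13]
    · have e1 : Subgroup.map π (Subgroup.closure ({r0, r1, r2, r3, r4, r5} : Set G)) = ⊤ := by
        rw [hgen]
        exact Subgroup.map_top_of_surjective _ (QuotientGroup.mk'_surjective N)
      rw [MonoidHom.map_closure] at e1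
      rw [eq_top_iff, ← e1, Subgroup.closure_le]
      rintro _ ⟨g, hg, rfl⟩
      simp only [Set.mem_insert_iff, Set.mem_singleton_iff] at hg
      rcases hg with rfl | rfl | rfl | rfl | rfl | rfl
      · exact Subgroup.subset_closure (by simp)
      · exact Subgroup.subset_closure (by simp)
      · exact Subgroup.subset_closure (by simp)
      · exact Subgroup.subset_closure (by simp)
      · rw [p4]; exact Subgroup.one_mem _
      · rw [p5]; exact Subgroup.one_mem _
  exact Finite.of_equiv _ (Subgroup.groupEquivQuotientProdSubgroup (s := N)).symm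

end Pool.Agent.Helper541.OTC
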