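import Pool.Agent.Helper541.OTC.Basic

/-!
# Soundness of the orbit-level coset enumeration checker
-/

set_option autoImplicit false

namespace Pool.Agent.Helper541.OTC

section Tab

variable (pt mt it at' : ℕ)

/-- properties of the tables -/
structure TabProp : Prop where
  p0 : ∀ k < 5, Pn pt 0 k = k
  a31 : ∀ a < 120, actT at' a 31 = 31
  plt : ∀ a < 120, ∀ k < 5, Pn pt a k < 5
  mlt : ∀ a < 120, ∀ b < 120, mulT mt a b < 120
  mP : ∀ a < 120, ∀ b < 120, ∀ k < 5, Pn pt (mulT mt a b) k = Pn pt a (Pn pt b k)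
  ilt : ∀ a < 120, invT it a < 120
  iP : ∀ a < 120, ∀ k < 5, Pn pt a (Pn pt (invT it a) k) = k
  iP' : ∀ a < 120, ∀ k < 5, Pn pt (invT it a) (Pn pt a k) = k
  aa : ∀ a < 120, ∀ S < 32, actT at' a (actT at' (invT it a) S) = S
  ax : ∀ a < 120, ∀ S < 32, actT at' a S =
        (((S % 2) * 2 ^ (Pn pt a 0)) ^^^
        ((((S >>> 1) % 2) * 2 ^ (Pn pt a 1)) ^^^
        ((((S >>> 2) % 2) * 2 ^ (Pn pt a 2)) ^^^
        ((((S >>> 3) % 2) * 2 ^ (Pn pt a 3)) ^^^
        (((S >>> 4) % 2) * 2 ^ (Pn pt a 4))))))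

theorem cond_true_left {b c : Bool} (h : cond b c false = true) : b = true ∧ c = true := by
  cases b <;> simp_all

theorem tabProp (h : tabOK pt mt it at' = true) : TabProp pt mt it at' := by
  unfold tabOK at h
  obtain ⟨h0, h⟩ := cond_true_left h
  obtain ⟨h31, h⟩ := cond_true_left h
  obtain ⟨h1, h⟩ := cond_true_left h
  obtain ⟨h2, h⟩ := cond_true_left h
  obtain ⟨h3, h⟩ := cond_true_left h
  obtain ⟨h4, -⟩ := cond_true_left h
  have h0' := allb_sound h0
  have h1' := fun a ha => allb_sound (allb_sound h1 a ha)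
  have h2' := fun a ha => allb_sound (allb_sound h2 a ha)
  have h3' := allb_sound h3
  have h4' := fun a ha => allb_sound (allb_sound h4 a ha)
  have e2 : ∀ a < 120, ∀ b < 120, mulT mt a b < 120 ∧
      ∀ k < 5, Pn pt (mulT mt a b) k = Pn pt a (Pn pt b k) := by
    intro a ha b hb
    have := h2' a ha b hb
    rw [strict_eq] at this
    obtain ⟨x, y⟩ := cond_true_left this
    refine ⟨by simpa using Nat.le_of_ble_eq_true x, ?_⟩
    intro k hk
    exact Nat.eq_of_beq_eq_true (allb_sound y k hk)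
  have e3 : ∀ a < 120, invT it a < 120 ∧
      (∀ k < 5, Pn pt a (Pn pt (invT it a) k) = k ∧ Pn pt (invT it a) (Pn pt a k) = k) := by
    intro a ha
    have := h3' a ha
    rw [strict_eq] at this
    obtain ⟨x, y⟩ := cond_true_left this
    refine ⟨by simpa using Nat.le_of_ble_eq_true x, ?_⟩
    intro k hk
    obtain ⟨z, w⟩ := cond_true_left (allb_sound y k hk)
    exact ⟨Nat.eq_of_beq_eq_true z, Nat.eq_of_beq_eq_true w⟩
  exact
    { p0 := fun k hk => Nat.eq_of_beq_eq_true (h0' k hk)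
      a31 := fun a ha => Nat.eq_of_beq_eq_true (allb_sound h31 a ha)
      plt := fun a ha k hk => by simpa using Nat.le_of_ble_eq_true (h1' a ha k hk)
      mlt := fun a ha b hb => (e2 a ha b hb).1
      mP := fun a ha b hb => (e2 a ha b hb).2
      ilt := fun a ha => (e3 a ha).1
      iP := fun a ha k hk => ((e3 a ha).2 k hk).1
      iP' := fun a ha k hk => ((e3 a ha).2 k hk).2
      aa := fun a ha S hS => Nat.eq_of_beq_eq_true (cond_true_left (h4' a ha S hS)).1
      ax := fun a ha S hS => Nat.eq_of_beq_eq_true (cond_true_left (h4' a ha S hS)).2 }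

end Tab

variable {G : Type*} [Group G]

/-- product over the bits of a mask -/
def bS (β : Fin 5 → G) (m : ℕ) : G :=
  β 0 ^ (m % 2) * β 1 ^ ((m >>> 1) % 2) * β 2 ^ ((m >>> 2) % 2) * β 3 ^ ((m >>> 3) % 2) *
    β 4 ^ ((m >>> 4) % 2)

theorem bit_xor (a b n : ℕ) : ((a ^^^ b) >>> n) % 2 = ((a >>> n) % 2 + (b >>> n) % 2) % 2 := by
  rw [Nat.shiftRight_xor_distrib]
  generalize a >>> n = x
  generalize b >>> n = y
  have := Nat.xor_mod_two_eq (m := x) (n := y)
  omega

/-- frames: commuting involutions with the star relations -/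
structure Good (c : G) (β : Fin 5 → G) : Prop where
  inv : ∀ k, β k * β k = 1
  comm : ∀ i j, β i * β j = β j * β i
  o3 : ∀ k : Fin 5, (c * bS β (2 ^ k.val)) ^ 3 = 1
  o6 : ∀ k : Fin 5, (c * bS β (31 ^^^ 2 ^ k.val)) ^ 6 = 1

theorem pow_par {x : G} (hx : x * x = 1) (a b : ℕ) : x ^ ((a + b) % 2) = x ^ a * x ^ b := by
  rw [← pow_add]
  have h2 : x ^ 2 = 1 := by rw [pow_two, hx]
  conv_rhs => rw [← Nat.div_add_mod (a + b) 2, pow_add, pow_mul, h2, one_pow, one_mul]

theorem bS_xor {β : Fin 5 → G} (hi : ∀ k, β k * β k = 1) (hc : ∀ i j, β i * β j = β j * β i)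
    (a b : ℕ) : bS β (a ^^^ b) = bS β a * bS β b := by
  have C : ∀ i j (m n : ℕ), Commute (β i ^ m) (β j ^ n) := fun i j m n =>
    (show Commute (β i) (β j) from hc i j).pow_pow m n
  unfold bS
  have h0 : (a ^^^ b) % 2 = (a % 2 + b % 2) % 2 := by simpa using bit_xor a b 0
  rw [h0, bit_xor, bit_xor, bit_xor, bit_xor, pow_par (hi 0), pow_par (hi 1), pow_par (hi 2),
    pow_par (hi 3), pow_par (hi 4)]
  rw [(C 0 1 _ _).mul_mul_mul_comm]
  rw [Commute.mul_mul_mul_comm (((C 0 2 _ _).mul_left (C 1 2 _ _)))]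
  rw [Commute.mul_mul_mul_comm ((((C 0 3 _ _).mul_left (C 1 3 _ _)).mul_left (C 2 3 _ _)))]
  rw [Commute.mul_mul_mul_comm (((((C 0 4 _ _).mul_left (C 1 4 _ _)).mul_left (C 2 4 _ _)).mul_left
    (C 3 4 _ _)))]

theorem bS_zero (β : Fin 5 → G) : bS β 0 = 1 := by simp [bS]

theorem bS_self {β : Fin 5 → G} (hi : ∀ k, β k * β k = 1) (hc : ∀ i j, β i * β j = β j * β i)
    (a : ℕ) : bS β a * bS β a = 1 := by
  rw [← bS_xor hi hc, Nat.xor_self, bS_zero]

theorem bS_single (β : Fin 5 → G) (j : ℕ) (hj : j < 5) (b : ℕ) (hb : b < 2) :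
    bS β (b * 2 ^ j) = β ⟨j, hj⟩ ^ b := by
  interval_cases j <;> interval_cases b <;> simp [bS]

/-- the permutation with a given code -/
def pf (pt a : ℕ) (k : Fin 5) : Fin 5 := ⟨Pn pt a k % 5, Nat.mod_lt _ (by norm_num)⟩

section
variable {pt mt it at' : ℕ} (T : TabProp pt mt it at')
include T

theorem pf_val {a : ℕ} (ha : a < 120) (k : Fin 5) : (pf pt a k).val = Pn pt a k := by
  unfold pf
  exact Nat.mod_eq_of_lt (T.plt a ha k k.isLt)

theorem pf_zero : pf pt 0 = id := by
  funext k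
  apply Fin.ext
  rw [pf_val T (by norm_num)]
  exact T.p0 k k.isLt

theorem pf_mul {a b : ℕ} (ha : a < 120) (hb : b < 120) :
    pf pt (mulT mt a b) = pf pt a ∘ pf pt b := by
  funext k
  apply Fin.ext
  rw [pf_val T (T.mlt a ha b hb), Function.comp_apply, pf_val T ha, pf_val T hb]
  exact T.mP a ha b hb k k.isLt

theorem pf_inv {a : ℕ} (ha : a < 120) : pf pt a ∘ pf pt (invT it a) = id := by
  funext k
  apply Fin.ext
  rw [Function.comp_apply, pf_val T ha, pf_val T (T.ilt a ha)]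
  exact T.iP a ha k k.isLt

theorem pf_inv' {a : ℕ} (ha : a < 120) : pf pt (invT it a) ∘ pf pt a = id := by
  funext k
  apply Fin.ext
  rw [Function.comp_apply, pf_val T (T.ilt a ha), pf_val T ha]
  exact T.iP' a ha k k.isLt

theorem bS_act {β : Fin 5 → G} (hi : ∀ k, β k * β k = 1) (hc : ∀ i j, β i * β j = β j * β i)
    {a S : ℕ} (ha : a < 120) (hS : S < 32) : bS (β ∘ pf pt a) S = bS β (actT at' a S) := by
  rw [T.ax a ha S hS, bS_xor hi hc, bS_xor hi hc, bS_xor hi hc, bS_xor hi hc]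
  rw [bS_single β _ (T.plt a ha 0 (by norm_num)) _ (Nat.mod_lt _ (by norm_num)),
    bS_single β _ (T.plt a ha 1 (by norm_num)) _ (Nat.mod_lt _ (by norm_num)),
    bS_single β _ (T.plt a ha 2 (by norm_num)) _ (Nat.mod_lt _ (by norm_num)),
    bS_single β _ (T.plt a ha 3 (by norm_num)) _ (Nat.mod_lt _ (by norm_num)),
    bS_single β _ (T.plt a ha 4 (by norm_num)) _ (Nat.mod_lt _ (by norm_num))]
  have hk : ∀ k : Fin 5, pf pt a k = ⟨Pn pt a k, T.plt a ha k k.isLt⟩ := fun k =>
    Fin.ext (pf_val T ha k)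
  unfold bS
  simp only [Function.comp_apply, hk, mul_assoc]
  rfl

theorem Good.comp {c : G} {β : Fin 5 → G} (h : Good c β) {a : ℕ} (ha : a < 120) :
    Good c (β ∘ pf pt a) := by
  have e1 : ∀ k : Fin 5, bS (β ∘ pf pt a) (2 ^ k.val) = bS β (2 ^ (pf pt a k).val) := by
    intro k
    have h1 := bS_single (β ∘ pf pt a) k.val k.isLt 1 (by norm_num)
    have h2 := bS_single β (pf pt a k).val (pf pt a k).isLt 1 (by norm_num)
    rw [one_mul] at h1 h2
    rw [h1, h2]
    rfl
  have hi : ∀ k, (β ∘ pf pt a) k * (β ∘ pf pt a) k = 1 := fun k => h.inv _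
  have hc : ∀ i j, (β ∘ pf pt a) i * (β ∘ pf pt a) j = (β ∘ pf pt a) j * (β ∘ pf pt a) i :=
    fun i j => h.comm _ _
  refine ⟨hi, hc, ?_, ?_⟩
  · intro k
    rw [e1]
    exact h.o3 _
  · intro k
    rw [bS_xor hi hc, e1, bS_act T h.inv h.comm ha (by norm_num), T.a31 a ha,
      ← bS_xor h.inv h.comm]
    exact h.o6 _

end

/-- The conjugates of `c` attached to the orbits. -/
noncomputable def E (par : ℕ → ℕ) (c : G) (j : ℕ) : (Fin 5 → G) → G :=
  if _h : par j % 2048 < j then
    fun β => c * (bS β (par j / 2048) * E par c (par j % 2048) β * bS β (par j / 2048)) * c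
  else fun _ => c
termination_by j

theorem E_lt (par : ℕ → ℕ) (c : G) (j : ℕ) (h : par j % 2048 < j) (β : Fin 5 → G) :
    E par c j β =
      c * (bS β (par j / 2048) * E par c (par j % 2048) β * bS β (par j / 2048)) * c := by
  rw [E, dif_pos h]

theorem E_zero (par : ℕ → ℕ) (c : G) (β : Fin 5 → G) : E par c 0 β = c := by
  rw [E, dif_neg (by omega)]

theorem map_bS {H : Type*} [Group H] (φ : G →* H) (β : Fin 5 → G) (m : ℕ) :
    φ (bS β m) = bS (φ ∘ β) m := by
  simp [bS]

theorem map_E {H : Type*} [Group H] (φ : G →* H) (par : ℕ → ℕ) (c : G) (β : Fin 5 → G) (j : ℕ) :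
    φ (E par c j β) = E par (φ c) j (φ ∘ β) := by
  induction j using Nat.strong_induction_on with
  | _ j ih =>
    by_cases h : par j % 2048 < j
    · rw [E_lt par c j h, E_lt par (φ c) j h]
      simp only [map_mul, map_bS, ih _ h]
    · rw [E, dif_neg h, E, dif_neg h]

/-- state value -/
noncomputable def X (pt : ℕ) (par : ℕ → ℕ) (c : G) (β : Fin 5 → G) (V i s : ℕ) : G :=
  bS β V * E par c i (β ∘ pf pt s) * bS β V

/-- the meaning of a packed fact -/
def Holds (pt : ℕ) (par : ℕ → ℕ) (c : G) (e i S j U τ : ℕ) : Prop :=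
  ∀ β : Fin 5 → G, Good c β →
    c ^ e * (bS β S * E par c i β * bS β S) * c ^ e = X pt par c β U j τ

/-- the meaning of a packed record -/
def HoldsR (pt : ℕ) (par : ℕ → ℕ) (c : G) (r : ℕ) : Prop :=
  (r >>> 33) % 128 < 120 ∧
  Holds pt par c (r % 2) ((r >>> 1) % 2048) ((r >>> 12) % 32) ((r >>> 17) % 2048)
    ((r >>> 28) % 32) ((r >>> 33) % 128)

section
variable {pt mt it at' : ℕ} (T : TabProp pt mt it at')
include T

theorem Holds.fwd {par : ℕ → ℕ} {c : G} (hcc : c * c = 1) {e i S j U τ : ℕ}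
    (h : Holds pt par c e i S j U τ) (he : e < 2) (hS : S < 32) (hU : U < 32) (hτ : τ < 120)
    {β : Fin 5 → G} (hβ : Good c β) {V s : ℕ} (hs : s < 120)
    (hT : e * (V ^^^ actT at' s S) = 0) :
    c ^ e * X pt par c β V i s * c ^ e =
      X pt par c β ((V ^^^ actT at' s S) ^^^ actT at' s U) j (mulT mt s τ) := by
  have hi := hβ.inv
  have hc := hβ.comm
  have h1 := h (β ∘ pf pt s) (hβ.comp T hs)
  unfold X at h1 ⊢
  rw [bS_act T hi hc hs hS, bS_act T hi hc hs hU] at h1
  have hfr : (β ∘ pf pt s) ∘ pf pt τ = β ∘ pf pt (mulT mt s τ) := by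
    rw [pf_mul T hs hτ, Function.comp_assoc]
  rw [hfr] at h1
  set T' := V ^^^ actT at' s S with hT'
  have hV : V = T' ^^^ actT at' s S := by
    rw [hT', Nat.xor_assoc, Nat.xor_self, Nat.xor_zero]
  have hcomm : bS β T' * bS β (actT at' s S) = bS β (actT at' s S) * bS β T' := by
    rw [← bS_xor hi hc, ← bS_xor hi hc, Nat.xor_comm]
  have hcomm' : bS β T' * bS β (actT at' s U) = bS β (actT at' s U) * bS β T' := by
    rw [← bS_xor hi hc, ← bS_xor hi hc, Nat.xor_comm]
  have hVV : bS β V = bS β T' * bS β (actT at' s S) := by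
    rw [← bS_xor hi hc, ← hV]
  have hUU : bS β (T' ^^^ actT at' s U) = bS β T' * bS β (actT at' s U) := bS_xor hi hc _ _
  rw [hUU, hVV]
  interval_cases e
  · simp only [pow_zero, one_mul, mul_one] at h1 ⊢
    calc bS β T' * bS β (actT at' s S) * E par c i (β ∘ pf pt s) * (bS β T' * bS β (actT at' s S))
        = bS β T' * (bS β (actT at' s S) * E par c i (β ∘ pf pt s) * bS β (actT at' s S)) *
            bS β T' := by
          rw [hcomm]; simp only [mul_assoc]; rw [← hcomm]; 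
          simp only [← mul_assoc]; rw [hcomm]
      _ = bS β T' * (bS β (actT at' s U) * E par c j (β ∘ pf pt (mulT mt s τ)) *
            bS β (actT at' s U)) * bS β T' := by rw [h1]
      _ = _ := by
          rw [hcomm']; simp only [mul_assoc]; rw [← hcomm']; 
          simp only [← mul_assoc]; rw [hcomm']
  · have h0 : T' = 0 := by simpa using hT
    rw [h0, bS_zero, one_mul, one_mul]
    exact h1


theorem conj_pow {c : G} (hcc : c * c = 1) {e : ℕ} (he : e < 2) {x y : G}
    (h : c ^ e * x * c ^ e = y) : c ^ e * y * c ^ e = x := by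
  interval_cases e
  · simpa using h.symm
  · rw [← h]
    simp only [pow_one]
    calc c * (c * x * c) * c = (c * c) * x * (c * c) := by group
      _ = x := by rw [hcc]; simp

theorem Holds.rev {par : ℕ → ℕ} {c : G} (hcc : c * c = 1) {e i S j U τ : ℕ}
    (h : Holds pt par c e i S j U τ) (he : e < 2) (hS : S < 32) (hU : U < 32) (hτ : τ < 120)
    {β : Fin 5 → G} (hβ : Good c β) {V s : ℕ} (hs : s < 120)
    (hT : e * (V ^^^ actT at' (mulT mt s (invT it τ)) U) = 0) :
    c ^ e * X pt par c β V j s * c ^ e =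
      X pt par c β ((V ^^^ actT at' (mulT mt s (invT it τ)) U) ^^^
        actT at' (mulT mt s (invT it τ)) S) i (mulT mt s (invT it τ)) := by
  have hi := hβ.inv
  have hc := hβ.comm
  set σ := mulT mt s (invT it τ) with hσ
  have hσl : σ < 120 := T.mlt s hs _ (T.ilt τ hτ)
  have h1 := h (β ∘ pf pt σ) (hβ.comp T hσl)
  unfold X at h1 ⊢
  rw [bS_act T hi hc hσl hS, bS_act T hi hc hσl hU] at h1
  have hfr : (β ∘ pf pt σ) ∘ pf pt τ = β ∘ pf pt s := by
    rw [hσ, pf_mul T hs (T.ilt τ hτ), Function.comp_assoc, Function.comp_assoc, pf_inv' T hτ]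
    rfl
  rw [hfr] at h1
  have h2 := conj_pow T hcc he h1
  set T' := V ^^^ actT at' σ U with hT'
  have hV : V = T' ^^^ actT at' σ U := by
    rw [hT', Nat.xor_assoc, Nat.xor_self, Nat.xor_zero]
  have hcomm : bS β T' * bS β (actT at' σ S) = bS β (actT at' σ S) * bS β T' := by
    rw [← bS_xor hi hc, ← bS_xor hi hc, Nat.xor_comm]
  have hcomm' : bS β T' * bS β (actT at' σ U) = bS β (actT at' σ U) * bS β T' := by
    rw [← bS_xor hi hc, ← bS_xor hi hc, Nat.xor_comm]
  have hVV : bS β V = bS β T' * bS β (actT at' σ U) := by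
    rw [← bS_xor hi hc, ← hV]
  have hUU : bS β (T' ^^^ actT at' σ S) = bS β T' * bS β (actT at' σ S) := bS_xor hi hc _ _
  rw [hUU, hVV]
  interval_cases e
  · simp only [pow_zero, one_mul, mul_one] at h2 ⊢
    calc bS β T' * bS β (actT at' σ U) * E par c j (β ∘ pf pt s) * (bS β T' * bS β (actT at' σ U))
        = bS β T' * (bS β (actT at' σ U) * E par c j (β ∘ pf pt s) * bS β (actT at' σ U)) *
            bS β T' := by
          rw [hcomm']; simp only [mul_assoc]; rw [← hcomm']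
          simp only [← mul_assoc]; rw [hcomm']
      _ = bS β T' * (bS β (actT at' σ S) * E par c i (β ∘ pf pt σ) *
            bS β (actT at' σ S)) * bS β T' := by rw [h2]
      _ = _ := by
          rw [hcomm]; simp only [mul_assoc]; rw [← hcomm]
          simp only [← mul_assoc]; rw [hcomm]
  · have h0 : T' = 0 := by simpa using hT
    rw [h0, bS_zero, one_mul, one_mul]
    exact h2

theorem actT_lt (a S : ℕ) : actT at' a S < 32 := Nat.mod_lt _ (by norm_num)

theorem xor_lt {a b : ℕ} (ha : a < 32) (hb : b < 32) : a ^^^ b < 32 :=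
  Nat.xor_lt_two_pow (n := 5) ha hb

/-- adding a mask -/
theorem X_mask {par : ℕ → ℕ} {c : G} {β : Fin 5 → G} (hβ : Good c β) (V i s m : ℕ) :
    X pt par c β (V ^^^ m) i s = bS β m * X pt par c β V i s * bS β m := by
  unfold X
  rw [bS_xor hβ.inv hβ.comm]
  have hcomm : bS β V * bS β m = bS β m * bS β V := by
    rw [← bS_xor hβ.inv hβ.comm, ← bS_xor hβ.inv hβ.comm, Nat.xor_comm]
  calc bS β V * bS β m * E par c i (β ∘ pf pt s) * (bS β V * bS β m)
      = (bS β V * bS β m) * E par c i (β ∘ pf pt s) * (bS β V * bS β m) := rfl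
    _ = (bS β m * bS β V) * E par c i (β ∘ pf pt s) * (bS β V * bS β m) := by rw [hcomm]
    _ = _ := by simp only [mul_assoc]

end

end Pool.Agent.Helper541.OTC
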