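import Pool.Agent.Helper541.OTC.Sound

set_option autoImplicit false

namespace Pool.Agent.Helper541.OTC

variable {G : Type*} [Group G]

theorem runK_zero (mt it at' : ℕ) (R : ℕ → ℕ) (t m : ℕ) (k : ℕ → ℕ → ℕ → ℕ → Bool)
    (us i V s c : ℕ) : runK mt it at' R t m k 0 us i V s c = k i V s c := rfl

theorem runK_succ (mt it at' : ℕ) (R : ℕ → ℕ) (t m : ℕ) (k : ℕ → ℕ → ℕ → ℕ → Bool)
    (fuel us i V s c : ℕ) : runK mt it at' R t m k (fuel + 1) us i V s c =
      (strict (Nat.mod us 65536) fun u =>
      strict (Nat.shiftRight u 1) fun id =>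
      cond (Nat.ble (Nat.succ id) t)
        (strict (R id) fun r =>
          strict (Nat.mod (Nat.shiftRight r 1) 2048) fun fi =>
          strict (Nat.mod (Nat.shiftRight r 12) 32) fun S =>
          strict (Nat.mod (Nat.shiftRight r 17) 2048) fun j =>
          strict (Nat.mod (Nat.shiftRight r 28) 32) fun U =>
          strict (Nat.mod (Nat.shiftRight r 33) 128) fun τ =>
          strict (Nat.mod r 2) fun e =>
          cond (Nat.beq (Nat.mod u 2) 0)
            (cond (Nat.beq fi i)
              (strict (Nat.xor V (actT at' s S)) fun T =>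
                cond (Nat.beq (Nat.mul e T) 0)
                  (strict (Nat.xor (Nat.xor T (actT at' s U)) (Nat.mul e m)) fun V' =>
                    strict (mulT mt s τ) fun s' =>
                    strict (Nat.shiftRight us 16) fun us' =>
                      runK mt it at' R t m k fuel us' j V' s' (Nat.add c e))
                  false)
              false)
            (cond (Nat.beq j i)
              (strict (mulT mt s (invT it τ)) fun s' =>
                strict (Nat.xor V (actT at' s' U)) fun T =>
                cond (Nat.beq (Nat.mul e T) 0)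
                  (strict (Nat.xor (Nat.xor T (actT at' s' S)) (Nat.mul e m)) fun V' =>
                    strict (Nat.shiftRight us 16) fun us' =>
                      runK mt it at' R t m k fuel us' fi V' s' (Nat.add c e))
                  false)
              false))
        false) := rfl

theorem conj_step {c : G} (hcc : c * c = 1) {β : Fin 5 → G} (hβ : Good c β) {e m : ℕ}
    (he : e < 2) (x : G) :
    bS β (e * m) * (c ^ e * x * c ^ e) * bS β (e * m) =
      ((c * bS β m) ^ e)⁻¹ * x * (c * bS β m) ^ e := by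
  interval_cases e
  · simp [bS_zero]
  · have h1 : c⁻¹ = c := inv_eq_of_mul_eq_one_left hcc
    have h2 : (bS β m)⁻¹ = bS β m := inv_eq_of_mul_eq_one_left (bS_self hβ.inv hβ.comm m)
    simp only [pow_one, one_mul, mul_inv_rev, h1, h2, mul_assoc]

section
variable {pt mt it at' : ℕ} (T : TabProp pt mt it at')
include T

theorem runK_sound {par : ℕ → ℕ} {c : G} (hcc : c * c = 1) {R : ℕ → ℕ} {t m : ℕ}
    (hR : ∀ id < t, HoldsR pt par c (R id)) {β : Fin 5 → G} (hβ : Good c β) (hm : m < 32)
    (k : ℕ → ℕ → ℕ → ℕ → Bool) (fuel : ℕ) : ∀ us i V s cnt : ℕ, i < 2048 → V < 32 → s < 120 →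
      runK mt it at' R t m k fuel us i V s cnt = true →
      ∃ i' V' s' n : ℕ, i' < 2048 ∧ V' < 32 ∧ s' < 120 ∧ k i' V' s' (cnt + n) = true ∧
        X pt par c β V' i' s' =
          ((c * bS β m) ^ n)⁻¹ * X pt par c β V i s * (c * bS β m) ^ n := by
  induction fuel with
  | zero =>
    intro us i V s cnt hi hV hs h
    rw [runK_zero] at h
    exact ⟨i, V, s, 0, hi, hV, hs, h, by simp⟩
  | succ fuel ih =>
    intro us i V s cnt hi hV hs h
    rw [runK_succ] at h
    simp only [strict_eq] at h
    obtain ⟨hid, h⟩ := cond_true_left h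
    generalize hidd : Nat.shiftRight (Nat.mod us 65536) 1 = id at h hid
    have hid' : id < t := Nat.le_of_ble_eq_true hid
    obtain ⟨hτ, hH⟩ := hR id hid'
    generalize R id = r at h hτ hH
    have he : r % 2 < 2 := Nat.mod_lt _ (by norm_num)
    have hS : (r >>> 12) % 32 < 32 := Nat.mod_lt _ (by norm_num)
    have hU : (r >>> 28) % 32 < 32 := Nat.mod_lt _ (by norm_num)
    have hem : r % 2 * m < 32 := by
      have : r % 2 * m ≤ 1 * m := Nat.mul_le_mul_right _ (by omega)
      omega
    cases hb : Nat.beq (Nat.mod (Nat.mod us 65536) 2) 0 with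
    | true =>
      rw [hb, cond_true] at h
      obtain ⟨h1, h⟩ := cond_true_left h
      obtain ⟨h2, h⟩ := cond_true_left h
      have h1' : (r >>> 1) % 2048 = i := Nat.eq_of_beq_eq_true h1
      have h2' : r % 2 * (V ^^^ actT at' s ((r >>> 12) % 32)) = 0 := Nat.eq_of_beq_eq_true h2
      rw [h1'] at hH
      have key := hH.fwd T hcc he hS hU hτ hβ hs h2'
      obtain ⟨i', V', s', n, hi', hV', hs', hk, hX⟩ := ih _ _ _ _ _
        (show (r >>> 17) % 2048 < 2048 from Nat.mod_lt _ (by norm_num))
        (xor_lt T (xor_lt T (xor_lt T hV (actT_lt T _ _)) (actT_lt T _ _)) hem)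
        (T.mlt s hs _ hτ) h
      refine ⟨i', V', s', r % 2 + n, hi', hV', hs', ?_, ?_⟩
      · rw [← add_assoc]; exact hk
      · rw [hX]
        change _ * X pt par c β (((V ^^^ actT at' s ((r >>> 12) % 32)) ^^^
          actT at' s ((r >>> 28) % 32)) ^^^ (r % 2 * m)) _ _ * _ = _
        rw [X_mask T hβ]
        change _ * (_ * X pt par c β ((V ^^^ actT at' s ((r >>> 12) % 32)) ^^^
          actT at' s ((r >>> 28) % 32)) ((r >>> 17) % 2048) (mulT mt s ((r >>> 33) % 128)) * _) *
            _ = _
        rw [← key, conj_step hcc hβ he]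
        simp only [pow_add, mul_inv_rev, mul_assoc]
    | false =>
      rw [hb, cond_false] at h
      obtain ⟨h1, h⟩ := cond_true_left h
      obtain ⟨h2, h⟩ := cond_true_left h
      have h1' : (r >>> 17) % 2048 = i := Nat.eq_of_beq_eq_true h1
      have h2' : r % 2 * (V ^^^ actT at' (mulT mt s (invT it ((r >>> 33) % 128)))
        ((r >>> 28) % 32)) = 0 := Nat.eq_of_beq_eq_true h2
      rw [h1'] at hH
      have key := hH.rev T hcc he hS hU hτ hβ hs h2'
      obtain ⟨i', V', s', n, hi', hV', hs', hk, hX⟩ := ih _ _ _ _ _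
        (show (r >>> 1) % 2048 < 2048 from Nat.mod_lt _ (by norm_num))
        (xor_lt T (xor_lt T (xor_lt T hV (actT_lt T _ _)) (actT_lt T _ _)) hem)
        (T.mlt s hs _ (T.ilt _ hτ)) h
      refine ⟨i', V', s', r % 2 + n, hi', hV', hs', ?_, ?_⟩
      · rw [← add_assoc]; exact hk
      · rw [hX]
        change _ * X pt par c β (((V ^^^ actT at' (mulT mt s (invT it ((r >>> 33) % 128)))
          ((r >>> 28) % 32)) ^^^ actT at' (mulT mt s (invT it ((r >>> 33) % 128)))
          ((r >>> 12) % 32)) ^^^ (r % 2 * m)) _ _ * _ = _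
        rw [X_mask T hβ]
        change _ * (_ * X pt par c β ((V ^^^ actT at' (mulT mt s (invT it ((r >>> 33) % 128)))
          ((r >>> 28) % 32)) ^^^ actT at' (mulT mt s (invT it ((r >>> 33) % 128)))
          ((r >>> 12) % 32)) ((r >>> 1) % 2048) (mulT mt s (invT it ((r >>> 33) % 128))) * _) *
            _ = _
        rw [← key, conj_step hcc hβ he]
        simp only [pow_add, mul_inv_rev, mul_assoc]

end

end Pool.Agent.Helper541.OTC
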