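import Pool.Agent.Helper541.OTC.Sound2

set_option autoImplicit false

namespace Pool.Agent.Helper541.OTC

variable {G : Type*} [Group G]

theorem mask_b (ty : ℕ) (h1 : 0 < ty) (h2 : ty ≤ 5) : maskOf ty = 2 ^ (ty - 1) := by
  interval_cases ty <;> decide

theorem mask_c (ty : ℕ) (h1 : 5 < ty) (h2 : ty ≤ 10) : maskOf ty = 31 ^^^ 2 ^ (ty - 6) := by
  interval_cases ty <;> decide

/-- the local identity `c` commutes with `b₀b₁cb₁b₀` -/
theorem local_comm {c : G} (hcc : c * c = 1) {β : Fin 5 → G} (hβ : Good c β) :
    c * (bS β 3 * c * bS β 3) * c = bS β 3 * c * bS β 3 := by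
  have h1 := hβ.o3 0
  have h2 := hβ.o3 1
  have hx : (2 : ℕ) ^ ((0 : Fin 5) : ℕ) = 1 := by norm_num
  have hy : (2 : ℕ) ^ ((1 : Fin 5) : ℕ) = 2 := by norm_num
  rw [hx] at h1
  rw [hy] at h2
  have h3 : bS β 3 = bS β 1 * bS β 2 := by
    rw [← bS_xor hβ.inv hβ.comm]; rfl
  have h3' : bS β 3 = bS β 2 * bS β 1 := by
    rw [← bS_xor hβ.inv hβ.comm]; rfl
  have i1 := bS_self hβ.inv hβ.comm 1
  have i2 := bS_self hβ.inv hβ.comm 2
  generalize bS β 1 = x at *
  generalize bS β 2 = y at *
  have b1 : c * x * c = x * c * x := by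
    have : (c * x * c) * (x * c * x) = 1 := by
      rw [← h1]; simp only [pow_succ, pow_zero, one_mul, mul_assoc]
    have e := eq_inv_of_mul_eq_one_left this
    rw [e, mul_inv_rev, mul_inv_rev, inv_eq_of_mul_eq_one_left hcc, inv_eq_of_mul_eq_one_left i1,
      mul_assoc]
  have b2 : c * y * c = y * c * y := by
    have : (c * y * c) * (y * c * y) = 1 := by
      rw [← h2]; simp only [pow_succ, pow_zero, one_mul, mul_assoc]
    have e := eq_inv_of_mul_eq_one_left this
    rw [e, mul_inv_rev, mul_inv_rev, inv_eq_of_mul_eq_one_left hcc, inv_eq_of_mul_eq_one_left i2,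
      mul_assoc]
  have hxy : x * y = y * x := by rw [← h3, h3']
  have e1 : bS β 3 * c * bS β 3 = x * (c * y * c) * x := by
    calc bS β 3 * c * bS β 3 = (x * y) * c * (y * x) := by rw [h3]; rw [hxy]; 
      _ = x * (y * c * y) * x := by simp only [mul_assoc]
      _ = _ := by rw [b2]
  rw [e1]
  calc c * (x * (c * y * c) * x) * c = (c * x * c) * y * (c * x * c) := by
        simp only [mul_assoc]
    _ = x * c * (x * y) * (x * c * x) := by rw [b1]; simp only [mul_assoc]
    _ = x * c * y * (x * x) * (c * x) := by rw [hxy]; simp only [mul_assoc]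
    _ = _ := by rw [i1]; simp only [mul_one, mul_assoc]

section
variable {pt mt it at' : ℕ} (T : TabProp pt mt it at')
include T

theorem X_zero {par : ℕ → ℕ} {c : G} {β : Fin 5 → G} (V i : ℕ) :
    X pt par c β V i 0 = bS β V * E par c i β * bS β V := by
  unfold X
  rw [pf_zero T]
  rfl

theorem chk_sound {par : ℕ → ℕ} {c : G} (hcc : c * c = 1) {R J : ℕ → ℕ} {t : ℕ}
    (hR : ∀ id < t, HoldsR pt par c (R id)) (h : chk mt it at' R J par t = true) :
    HoldsR pt par c (R t) := by
  unfold chk at h
  simp only [strict_eq] at h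
  generalize R t = r at h
  obtain ⟨hτ0, h⟩ := cond_true_left h
  have hτ : (r >>> 33) % 128 < 120 := Nat.le_of_ble_eq_true hτ0
  cases hty : Nat.beq (Nat.mod (J t) 16) 15 with
  | true =>
    rw [hty, cond_true] at h
    refine ⟨hτ, ?_⟩
    cases h1 : Nat.beq r 1 with
    | true =>
      have h1' : r = 1 := Nat.eq_of_beq_eq_true h1
      subst h1'
      intro β hβ
      have : X pt par c β 0 0 0 = c := by rw [X_zero T, bS_zero, E_zero]; simp
      change c ^ 1 * (bS β 0 * E par c 0 β * bS β 0) * c ^ 1 = X pt par c β 0 0 0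
      rw [this, bS_zero, E_zero]
      simp [hcc]
    | false =>
      rw [h1, cond_false] at h
      cases h2 : Nat.beq (Nat.mod r 8589934592) 0 with
      | true =>
        have h2' : r % 8589934592 = 0 := Nat.eq_of_beq_eq_true h2
        have a1 : r % 2 = 0 := by omega
        have a2 : (r >>> 1) % 2048 = 0 := by rw [Nat.shiftRight_eq_div_pow]; omega
        have a3 : (r >>> 12) % 32 = 0 := by rw [Nat.shiftRight_eq_div_pow]; omega
        have a4 : (r >>> 17) % 2048 = 0 := by rw [Nat.shiftRight_eq_div_pow]; omega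
        have a5 : (r >>> 28) % 32 = 0 := by rw [Nat.shiftRight_eq_div_pow]; omega
        intro β hβ
        rw [a1, a2, a3, a4, a5]
        unfold X
        rw [bS_zero, E_zero, E_zero]
        simp
      | false =>
        rw [h2, cond_false] at h
        cases h3 : Nat.beq r 805318657 with
        | true =>
          have h3' : r = 805318657 := Nat.eq_of_beq_eq_true h3
          subst h3'
          intro β hβ
          change c ^ 1 * (bS β 3 * E par c 0 β * bS β 3) * c ^ 1 = X pt par c β 3 0 0
          rw [X_zero T, E_zero, pow_one]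
          exact local_comm hcc hβ
        | false =>
          rw [h3, cond_false] at h
          obtain ⟨h4, h⟩ := cond_true_left h
          obtain ⟨h5, h6⟩ := cond_true_left h
          have h4' : r = 1 + (2 * par ((r >>> 17) % 2048) + 131072 * ((r >>> 17) % 2048)) :=
            Nat.eq_of_beq_eq_true h4
          have h5' : par ((r >>> 17) % 2048) % 2048 < (r >>> 17) % 2048 :=
            Nat.le_of_ble_eq_true h5
          have h6' : par ((r >>> 17) % 2048) < 65536 := Nat.le_of_ble_eq_true h6
          have hj : (r >>> 17) % 2048 < 2048 := Nat.mod_lt _ (by norm_num)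
          generalize hjj : (r >>> 17) % 2048 = j at *
          have a1 : r % 2 = 1 := by omega
          have a2 : (r >>> 1) % 2048 = par j % 2048 := by
            rw [Nat.shiftRight_eq_div_pow]; omega
          have a3 : (r >>> 12) % 32 = par j / 2048 := by
            rw [Nat.shiftRight_eq_div_pow]; omega
          have hlt : r < 268435456 := by omega
          have a5 : (r >>> 28) % 32 = 0 := by
            rw [Nat.shiftRight_eq_div_pow, Nat.div_eq_of_lt (by norm_num; omega)]
          have a6 : (r >>> 33) % 128 = 0 := by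
            rw [Nat.shiftRight_eq_div_pow, Nat.div_eq_of_lt (by norm_num; omega)]
          intro β hβ
          rw [a1, a2, a3, a5, a6, X_zero T, bS_zero, one_mul, mul_one, pow_one]
          rw [E_lt par c j h5']
  | false =>
    rw [hty, cond_false] at h
    refine ⟨hτ, ?_⟩
    intro β hβ
    generalize htyy : Nat.mod (J t) 16 = ty at h hty
    have hm : maskOf ty < 32 := Nat.mod_lt _ (by norm_num)
    obtain ⟨i', V', s', n, hi', hV', hs', hk, hX⟩ := runK_sound T hcc hR hβ hm _ _ _ _ _ _ _
      (show (r >>> 1) % 2048 < 2048 from Nat.mod_lt _ (by norm_num))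
      (show (r >>> 12) % 32 ^^^ maskOf ty < 32 from
        xor_lt T (Nat.mod_lt _ (by norm_num)) hm)
      (show 0 < 120 by norm_num) h
    obtain ⟨k1, hk⟩ := cond_true_left hk
    obtain ⟨k2, hk⟩ := cond_true_left hk
    obtain ⟨k3, hk⟩ := cond_true_left hk
    have k1' : i' = (r >>> 17) % 2048 := Nat.eq_of_beq_eq_true k1
    have k2' : V' = (r >>> 28) % 32 := Nat.eq_of_beq_eq_true k2
    have k3' : s' = (r >>> 33) % 128 := Nat.eq_of_beq_eq_true k3
    rw [zero_add] at hk
    rw [← k1', ← k2', ← k3', hX, X_mask T hβ, X_zero T]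
    have c1 : c⁻¹ = c := inv_eq_of_mul_eq_one_left hcc
    have i1 := bS_self hβ.inv hβ.comm (maskOf ty)
    have i2 : (bS β (maskOf ty))⁻¹ = bS β (maskOf ty) := inv_eq_of_mul_eq_one_left i1
    generalize bS β ((r >>> 12) % 32) * E par c ((r >>> 1) % 2048) β *
      bS β ((r >>> 12) % 32) = x
    have fin : ∀ p : ℕ, (c * bS β (maskOf ty)) ^ (p + 1) = 1 →
        ((c * bS β (maskOf ty)) ^ p)⁻¹ * (bS β (maskOf ty) * x * bS β (maskOf ty)) *
          (c * bS β (maskOf ty)) ^ p = c ^ 1 * x * c ^ 1 := by
      intro p hp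
      have e1 : ((c * bS β (maskOf ty)) ^ p)⁻¹ = c * bS β (maskOf ty) := by
        rw [pow_succ] at hp
        exact inv_eq_of_mul_eq_one_right hp
      have e2 : (c * bS β (maskOf ty)) ^ p = bS β (maskOf ty) * c := by
        rw [← inv_inv ((c * bS β (maskOf ty)) ^ p), e1, mul_inv_rev, c1, i2]
      rw [e1, e2, pow_one]
      calc c * bS β (maskOf ty) * (bS β (maskOf ty) * x * bS β (maskOf ty)) *
            (bS β (maskOf ty) * c)
          = c * (bS β (maskOf ty) * bS β (maskOf ty)) * x *
            (bS β (maskOf ty) * bS β (maskOf ty)) * c := by simp only [mul_assoc]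
        _ = _ := by rw [i1]; simp only [mul_one]
    have hty16 : ty < 16 := by rw [← htyy]; exact Nat.mod_lt _ (by norm_num)
    unfold cntOK at hk
    rcases Nat.eq_zero_or_pos ty with h0 | h0
    · subst h0
      have hk' : n % 2 = r % 2 := Nat.eq_of_beq_eq_true hk
      have hm0 : maskOf 0 = 0 := rfl
      rw [hm0, bS_zero, one_mul, mul_one, mul_one]
      have c2 : c ^ 2 = 1 := by rw [pow_two, hcc]
      have e1 : c ^ n = c ^ (r % 2) := by
        conv_lhs => rw [← Nat.div_add_mod n 2, pow_add, pow_mul, c2, one_pow, one_mul, hk']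
      rw [e1, ← inv_pow, c1]
    · have hb0 : Nat.beq ty 0 = false := by
        cases hh : Nat.beq ty 0 with
        | false => rfl
        | true => have := Nat.eq_of_beq_eq_true hh; omega
      rw [hb0, cond_false] at hk
      cases hb5 : Nat.ble ty 5 with
      | true =>
        rw [hb5, cond_true] at hk
        obtain ⟨q1, q2⟩ := cond_true_left hk
        have q1' : n = 2 := Nat.eq_of_beq_eq_true q1
        have q2' : r % 2 = 1 := Nat.eq_of_beq_eq_true q2
        have ht5 : ty ≤ 5 := Nat.le_of_ble_eq_true hb5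
        rw [q1', q2']
        have hmm : ∃ k : Fin 5, maskOf ty = 2 ^ k.val := by
          exact ⟨⟨ty - 1, by omega⟩, mask_b ty (by omega) ht5⟩
        obtain ⟨k, hk2⟩ := hmm
        have ho := hβ.o3 k
        rw [← hk2] at ho
        exact (fin 2 ho).symm
      | false =>
        rw [hb5, cond_false] at hk
        obtain ⟨q0, hk⟩ := cond_true_left hk
        obtain ⟨q1, q2⟩ := cond_true_left hk
        have q1' : n = 5 := Nat.eq_of_beq_eq_true q1
        have q2' : r % 2 = 1 := Nat.eq_of_beq_eq_true q2
        have ht10 : ty ≤ 10 := Nat.le_of_ble_eq_true q0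
        have ht5 : 5 < ty := by
          by_contra hcon
          have : Nat.ble ty 5 = true := Nat.ble_eq_true_of_le (by omega)
          rw [this] at hb5
          exact absurd hb5 (by simp)
        rw [q1', q2']
        have hmm : ∃ k : Fin 5, maskOf ty = 31 ^^^ 2 ^ k.val := by
          exact ⟨⟨ty - 6, by omega⟩, mask_c ty ht5 ht10⟩
        obtain ⟨k, hk2⟩ := hmm
        have ho := hβ.o6 k
        rw [← hk2] at ho
        exact (fin 5 ho).symm

end

end Pool.Agent.Helper541.OTC
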